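import Pool.Agent.Lib.MP_41caf5_nt.Defs

/-!
Elementary number theory behind the checker: criteria for membership and non-membership in
`primesFor (-3)`.
-/

namespace Pool.Agent.MP41caf5

theorem primRoot_iff {p : ℕ} [Fact p.Prime] (hp2 : 2 < p) (g : ℤ) :
    IsPrimRootMod g p ↔ orderOf (g : ZMod p) = p - 1 := by
  constructor
  · rintro ⟨_, u, hu, hv⟩
    rw [← hu, orderOf_units, orderOf_eq_card_of_forall_mem_zpowers hv, Nat.card_eq_fintype_card,
      ZMod.card_units]
  · intro h
    have hg : (g : ZMod p) ≠ 0 := by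
      intro h0
      rw [h0] at h
      have h1 := pow_orderOf_eq_one (0 : ZMod p)
      rw [h, zero_pow (by omega)] at h1
      exact zero_ne_one h1
    refine ⟨fun hd => hg ((ZMod.intCast_zmod_eq_zero_iff_dvd g p).2 hd), Units.mk0 _ hg, rfl, ?_⟩
    have ho : orderOf (Units.mk0 (g : ZMod p) hg) = Nat.card (ZMod p)ˣ := by
      rw [← orderOf_units, Units.val_mk0, h, Nat.card_eq_fintype_card, ZMod.card_units]
    have ht : Subgroup.zpowers (Units.mk0 (g : ZMod p) hg) = ⊤ := by
      apply Subgroup.eq_top_of_card_eq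
      rw [Nat.card_zpowers, ho]
    intro v
    rw [ht]
    exact Subgroup.mem_top v

/-- An element with `s ^ 2 = -3` gives an element of order `3`. -/
theorem mod_three_of_isSquare {p : ℕ} [Fact p.Prime] (hp3 : 3 < p)
    (h : IsSquare (-3 : ZMod p)) : 3 ∣ p - 1 := by
  obtain ⟨s, hs⟩ := h
  have hp : p.Prime := Fact.out
  have h2 : (2 : ZMod p) ≠ 0 := by
    have := (ZMod.natCast_eq_zero_iff 2 p).not.2 (fun hd => by
      have := Nat.le_of_dvd (by norm_num) hd; omega)
    exact_mod_cast this
  have h3 : (3 : ZMod p) ≠ 0 := by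
    have := (ZMod.natCast_eq_zero_iff 3 p).not.2 (fun hd => by
      have := Nat.le_of_dvd (by norm_num) hd; omega)
    exact_mod_cast this
  set w : ZMod p := (s - 1) / 2 with hw
  have hw2 : 2 * w = s - 1 := by rw [hw]; field_simp
  have hq : w ^ 2 + w + 1 = 0 := by
    have : (4 : ZMod p) * (w ^ 2 + w + 1) = 0 := by
      have e : (4 : ZMod p) * (w ^ 2 + w + 1) = (2 * w) ^ 2 + 2 * (2 * w) + 4 := by ring
      rw [e, hw2]
      linear_combination -hs
    have h4 : (4 : ZMod p) ≠ 0 := by
      have : (4 : ZMod p) = 2 * 2 := by norm_num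
      rw [this]; exact mul_ne_zero h2 h2
    exact (mul_eq_zero.1 this).resolve_left h4
  have hw3 : w ^ 3 = 1 := by linear_combination (w - 1) * hq
  have hw1 : w ≠ 1 := by
    intro h1
    rw [h1] at hq
    apply h3
    linear_combination hq
  have ho : orderOf w = 3 := orderOf_eq_prime hw3 hw1
  have hw0 : w ≠ 0 := by
    intro h0
    rw [h0] at hw3
    norm_num at hw3
  rw [← ho]
  exact orderOf_dvd_of_pow_eq_one (ZMod.pow_card_sub_one_eq_one hw0)

/-- If `3 ∣ p - 1` then `-3` is a square modulo `p`. -/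
theorem isSquare_neg_three {p : ℕ} [Fact p.Prime] (h : 3 ∣ p - 1) :
    IsSquare (-3 : ZMod p) := by
  have hp : p.Prime := Fact.out
  have : Fact (Nat.Prime 3) := ⟨by norm_num⟩
  obtain ⟨w, hw⟩ := exists_prime_orderOf_dvd_card (G := (ZMod p)ˣ) 3
    (by rw [ZMod.card_units]; exact h)
  have hw3 : (w : ZMod p) ^ 3 = 1 := by
    have := pow_orderOf_eq_one w
    rw [hw] at this
    have := congrArg Units.val this
    simpa using this
  have hw1 : (w : ZMod p) ≠ 1 := by
    intro h1
    have : w = 1 := Units.ext h1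
    rw [this, orderOf_one] at hw
    norm_num at hw
  have hq : (w : ZMod p) ^ 2 + w + 1 = 0 := by
    have : ((w : ZMod p) - 1) * ((w : ZMod p) ^ 2 + w + 1) = 0 := by linear_combination hw3
    exact (mul_eq_zero.1 this).resolve_left (sub_ne_zero.2 hw1)
  refine ⟨2 * w + 1, ?_⟩
  linear_combination -4 * hq

theorem two_mod_ne {p b e : ℕ} (hp : p.Prime) (hb : ¬ p ∣ b) : b ^ e % p ≠ 0 := by
  intro h
  exact hb (hp.dvd_of_dvd_pow (Nat.dvd_of_mod_eq_zero h))

/-- Casting a power congruence to `ZMod p`. -/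
theorem cast_pow_eq_one {p b e : ℕ} (hp : 1 < p) : ((b : ZMod p) ^ e = 1) ↔ b ^ e % p = 1 := by
  have h : ((b : ZMod p) ^ e = 1) ↔ ((b ^ e : ℕ) : ZMod p) = ((1 : ℕ) : ZMod p) := by
    push_cast; rfl
  rw [h, ZMod.natCast_eq_natCast_iff', Nat.mod_eq_of_lt hp]

/-- Membership criterion. -/
theorem mem_primesFor {p : ℕ} (hp : p.Prime) (h6 : p % 6 = 5) (hbig : 16384 < p)
    (h3 : ∀ q : ℕ, q.Prime → 5 ≤ q → q ∣ p - 1 → 3 ^ ((p - 1) / q) % p ≠ 1)
    (h2 : (p % 8 = 1 ∨ p % 8 = 3) ∨ ∃ k : ℕ, 0 < k ∧ 2 * k < p - 1 ∧ 2 ^ k % p = 1) :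
    p ∈ primesFor (-3) := by
  have : Fact p.Prime := ⟨hp⟩
  have hodd : p % 2 = 1 := by omega
  have h2dvd : 2 ∣ p - 1 := by omega
  have hn3 : (-3 : ZMod p) ≠ 0 := by
    intro h
    have h' : ((3 : ℕ) : ZMod p) = 0 := by
      push_cast
      linear_combination -h
    rw [ZMod.natCast_eq_zero_iff] at h'
    have := Nat.le_of_dvd (by norm_num) h'
    omega
  refine ⟨hp, by norm_num, ?_, ?_⟩
  · rw [primRoot_iff (by omega)]
    have hcast : ((-3 : ℤ) : ZMod p) = -3 := by push_cast; rfl
    rw [hcast]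
    apply orderOf_eq_of_pow_and_pow_div_prime (by omega) (ZMod.pow_card_sub_one_eq_one hn3)
    intro q hq hqd
    rcases Nat.lt_or_ge q 5 with hlt | hge
    · have hq2 : q = 2 ∨ q = 3 := by
        have := hq.two_le
        interval_cases q
        · left; rfl
        · right; rfl
        · exact absurd hq (by norm_num)
      rcases hq2 with rfl | rfl
      · intro h
        have hdiv : (p - 1) / 2 = p / 2 := by omega
        rw [hdiv] at h
        have hsq := (ZMod.euler_criterion p hn3).2 h
        have := mod_three_of_isSquare (by omega) hsq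
        omega
      · omega
    · have hqodd : q % 2 = 1 := by
        rcases hq.eq_two_or_odd with h | h
        · omega
        · exact h
      obtain ⟨e, he⟩ := hqd
      have hqpos : 0 < q := by omega
      have hdiv : (p - 1) / q = e := by rw [he]; exact Nat.mul_div_cancel_left e hqpos
      have heven : Even e := by
        have h1 : 2 ∣ q * e := by rw [← he]; exact h2dvd
        rcases (Nat.Prime.dvd_mul Nat.prime_two).1 h1 with h | h
        · omega
        · exact (even_iff_two_dvd).2 h
      rw [hdiv, heven.neg_pow]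
      intro h
      have h' : ((3 : ℕ) : ZMod p) ^ e = 1 := by push_cast; exact h
      rw [cast_pow_eq_one (by omega)] at h'
      apply h3 q hq hge ⟨e, he⟩
      rw [hdiv]
      exact h'
  · intro b hb1 hb2
    have hb : b = -2 ∨ b = -1 := by omega
    rw [primRoot_iff (by omega)]
    rcases hb with rfl | rfl
    · have hcast : ((-2 : ℤ) : ZMod p) = -2 := by push_cast; rfl
      rw [hcast]
      have hn2 : (-2 : ZMod p) ≠ 0 := by
        intro h
        have h' : ((2 : ℕ) : ZMod p) = 0 := by
          push_cast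
          linear_combination -h
        rw [ZMod.natCast_eq_zero_iff] at h'
        have := Nat.le_of_dvd (by norm_num) h'
        omega
      rcases h2 with h8 | ⟨k, hk0, hk1, hk2⟩
      · have hsq : IsSquare (-2 : ZMod p) := (ZMod.exists_sq_eq_neg_two_iff (by omega)).2 h8
        have h1 := (ZMod.euler_criterion p hn2).1 hsq
        have := orderOf_le_of_pow_eq_one (by omega) h1
        omega
      · have h1 : (-2 : ZMod p) ^ (2 * k) = 1 := by
          rw [Even.neg_pow (even_two_mul k)]
          have h2' : ((2 : ℕ) : ZMod p) ^ k = 1 := (cast_pow_eq_one (by omega)).2 hk2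
          push_cast at h2'
          rw [mul_comm, pow_mul, h2', one_pow]
        have := orderOf_le_of_pow_eq_one (by omega) h1
        omega
    · have hcast : ((-1 : ℤ) : ZMod p) = -1 := by push_cast; rfl
      rw [hcast]
      have h1 : (-1 : ZMod p) ^ 2 = 1 := by ring
      have := orderOf_le_of_pow_eq_one (by omega) h1
      omega

/-- Non-membership: `p ≡ 1 mod 3`. -/
theorem not_mem_of_mod_three {p : ℕ} (hbig : 16384 < p) (h3 : p % 3 = 1) :
    p ∉ primesFor (-3) := by
  rintro ⟨hp, _, h, _⟩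
  have : Fact p.Prime := ⟨hp⟩
  rw [primRoot_iff (by omega)] at h
  have hcast : ((-3 : ℤ) : ZMod p) = -3 := by push_cast; rfl
  rw [hcast] at h
  have hn3 : (-3 : ZMod p) ≠ 0 := by
    intro h
    have h' : ((3 : ℕ) : ZMod p) = 0 := by
      push_cast
      linear_combination -h
    rw [ZMod.natCast_eq_zero_iff] at h'
    have := Nat.le_of_dvd (by norm_num) h'
    omega
  have hsq : IsSquare (-3 : ZMod p) := isSquare_neg_three (by omega)
  have h1 := (ZMod.euler_criterion p hn3).1 hsq
  have := orderOf_le_of_pow_eq_one (by omega) h1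
  omega

/-- Non-membership: `3 ^ k = 1` modulo `p` with `0 < 2 * k < p - 1`. -/
theorem not_mem_of_pow {p k : ℕ} (hbig : 16384 < p) (hk0 : 0 < k) (hk1 : 2 * k < p - 1)
    (hk2 : 3 ^ k % p = 1) : p ∉ primesFor (-3) := by
  rintro ⟨hp, _, h, _⟩
  have : Fact p.Prime := ⟨hp⟩
  rw [primRoot_iff (by omega)] at h
  have hcast : ((-3 : ℤ) : ZMod p) = -3 := by push_cast; rfl
  rw [hcast] at h
  have h1 : (-3 : ZMod p) ^ (2 * k) = 1 := by
    rw [Even.neg_pow (even_two_mul k)]
    have h2' : ((3 : ℕ) : ZMod p) ^ k = 1 := (cast_pow_eq_one (by omega)).2 hk2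
    push_cast at h2'
    rw [mul_comm, pow_mul, h2', one_pow]
  have := orderOf_le_of_pow_eq_one (by omega) h1
  omega

/-- Non-membership: `-2` is a primitive root. -/
theorem not_mem_of_two {p : ℕ} (hp : p.Prime) (h6 : p % 6 = 5) (hbig : 16384 < p)
    (h8 : p % 8 = 5 ∨ p % 8 = 7)
    (h2 : ∀ q : ℕ, q.Prime → 5 ≤ q → q ∣ p - 1 → 2 ^ ((p - 1) / q) % p ≠ 1) :
    p ∉ primesFor (-3) := by
  have : Fact p.Prime := ⟨hp⟩
  rintro ⟨_, _, _, h⟩
  apply h (-2) (by norm_num) (by norm_num)
  rw [primRoot_iff (by omega)]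
  have hcast : ((-2 : ℤ) : ZMod p) = -2 := by push_cast; rfl
  rw [hcast]
  have h2dvd : 2 ∣ p - 1 := by omega
  have hn2 : (-2 : ZMod p) ≠ 0 := by
    intro h
    have h' : ((2 : ℕ) : ZMod p) = 0 := by
      push_cast
      linear_combination -h
    rw [ZMod.natCast_eq_zero_iff] at h'
    have := Nat.le_of_dvd (by norm_num) h'
    omega
  apply orderOf_eq_of_pow_and_pow_div_prime (by omega) (ZMod.pow_card_sub_one_eq_one hn2)
  intro q hq hqd
  rcases Nat.lt_or_ge q 5 with hlt | hge
  · have hq2 : q = 2 ∨ q = 3 := by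
      have := hq.two_le
      interval_cases q
      · left; rfl
      · right; rfl
      · exact absurd hq (by norm_num)
    rcases hq2 with rfl | rfl
    · intro h
      have hdiv : (p - 1) / 2 = p / 2 := by omega
      rw [hdiv] at h
      have hsq := (ZMod.euler_criterion p hn2).2 h
      have := (ZMod.exists_sq_eq_neg_two_iff (p := p) (by omega)).1 hsq
      omega
    · omega
  · have hqodd : q % 2 = 1 := by
      rcases hq.eq_two_or_odd with h | h
      · omega
      · exact h
    obtain ⟨e, he⟩ := hqd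
    have hqpos : 0 < q := by omega
    have hdiv : (p - 1) / q = e := by rw [he]; exact Nat.mul_div_cancel_left e hqpos
    have heven : Even e := by
      have h1 : 2 ∣ q * e := by rw [← he]; exact h2dvd
      rcases (Nat.Prime.dvd_mul Nat.prime_two).1 h1 with h | h
      · omega
      · exact (even_iff_two_dvd).2 h
    rw [hdiv, heven.neg_pow]
    intro h
    have h' : ((2 : ℕ) : ZMod p) ^ e = 1 := by push_cast; exact h
    rw [cast_pow_eq_one (by omega)] at h'
    apply h2 q hq hge ⟨e, he⟩
    rw [hdiv]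
    exact h'

end Pool.Agent.MP41caf5
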