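import Pool.Agent.Lib.MP_41caf5_nt.Sound
import Pool.Agent.Lib.MP_41caf5_nt.Data.D00
import Pool.Agent.Lib.MP_41caf5_nt.Data.D01
import Pool.Agent.Lib.MP_41caf5_nt.Data.D02
import Pool.Agent.Lib.MP_41caf5_nt.Data.D03
import Pool.Agent.Lib.MP_41caf5_nt.Data.D04
import Pool.Agent.Lib.MP_41caf5_nt.Data.D05
import Pool.Agent.Lib.MP_41caf5_nt.Data.D06
import Pool.Agent.Lib.MP_41caf5_nt.Data.D07
import Pool.Agent.Lib.MP_41caf5_nt.Data.D08
import Pool.Agent.Lib.MP_41caf5_nt.Data.D09
import Pool.Agent.Lib.MP_41caf5_nt.Data.D10
import Pool.Agent.Lib.MP_41caf5_nt.Data.D11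
import Pool.Agent.Lib.MP_41caf5_nt.Data.D12
import Pool.Agent.Lib.MP_41caf5_nt.Data.D13
import Pool.Agent.Lib.MP_41caf5_nt.Data.D14
import Pool.Agent.Lib.MP_41caf5_nt.Data.D15
import Pool.Agent.Lib.MP_41caf5_nt.Data.D16
import Pool.Agent.Lib.MP_41caf5_nt.Data.D17
import Pool.Agent.Lib.MP_41caf5_nt.Data.D18
import Pool.Agent.Lib.MP_41caf5_nt.Data.D19
import Pool.Agent.Lib.MP_41caf5_nt.Data.D20
import Pool.Agent.Lib.MP_41caf5_nt.Data.D21

/-!
All certified pieces put together: at least `743424` members of `primesFor (-3)` lie below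
`51459203`.
-/

namespace Pool.Agent.MP41caf5

theorem r0 : Reach 16427 0 := ⟨rfl, by norm_num, Nat.zero_le _⟩
theorem r1 : Reach 60353 1024 := Reach.step r0 D00.t0 rfl rfl
theorem r2 : Reach 108707 2048 := Reach.step r1 D00.t1 rfl rfl
theorem r3 : Reach 157211 3072 := Reach.step r2 D00.t2 rfl rfl
theorem r4 : Reach 208499 4096 := Reach.step r3 D00.t3 rfl rfl
theorem r5 : Reach 260339 5120 := Reach.step r4 D00.t4 rfl rfl
theorem r6 : Reach 313619 6144 := Reach.step r5 D00.t5 rfl rfl
theorem r7 : Reach 368513 7168 := Reach.step r6 D00.t6 rfl rfl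
theorem r8 : Reach 423347 8192 := Reach.step r7 D00.t7 rfl rfl
theorem r9 : Reach 478763 9216 := Reach.step r8 D00.t8 rfl rfl
theorem r10 : Reach 533633 10240 := Reach.step r9 D00.t9 rfl rfl
theorem r11 : Reach 590033 11264 := Reach.step r10 D00.t10 rfl rfl
theorem r12 : Reach 645329 12288 := Reach.step r11 D00.t11 rfl rfl
theorem r13 : Reach 702809 13312 := Reach.step r12 D00.t12 rfl rfl
theorem r14 : Reach 759953 14336 := Reach.step r13 D00.t13 rfl rfl
theorem r15 : Reach 816377 15360 := Reach.step r14 D00.t14 rfl rfl
theorem r16 : Reach 873617 16384 := Reach.step r15 D00.t15 rfl rfl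
theorem r17 : Reach 930977 17408 := Reach.step r16 D00.t16 rfl rfl
theorem r18 : Reach 991043 18432 := Reach.step r17 D00.t17 rfl rfl
theorem r19 : Reach 1049603 19456 := Reach.step r18 D00.t18 rfl rfl
theorem r20 : Reach 1108907 20480 := Reach.step r19 D00.t19 rfl rfl
theorem r21 : Reach 1166849 21504 := Reach.step r20 D00.t20 rfl rfl
theorem r22 : Reach 1226741 22528 := Reach.step r21 D00.t21 rfl rfl
theorem r23 : Reach 1287347 23552 := Reach.step r22 D00.t22 rfl rfl
theorem r24 : Reach 1346747 24576 := Reach.step r23 D00.t23 rfl rfl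
theorem r25 : Reach 1406033 25600 := Reach.step r24 D00.t24 rfl rfl
theorem r26 : Reach 1466417 26624 := Reach.step r25 D00.t25 rfl rfl
theorem r27 : Reach 1527761 27648 := Reach.step r26 D00.t26 rfl rfl
theorem r28 : Reach 1589747 28672 := Reach.step r27 D00.t27 rfl rfl
theorem r29 : Reach 1650923 29696 := Reach.step r28 D00.t28 rfl rfl
theorem r30 : Reach 1711181 30720 := Reach.step r29 D00.t29 rfl rfl
theorem r31 : Reach 1773179 31744 := Reach.step r30 D00.t30 rfl rfl
theorem r32 : Reach 1832219 32768 := Reach.step r31 D00.t31 rfl rfl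
theorem r33 : Reach 1892249 33792 := Reach.step r32 D00.t32 rfl rfl
theorem r34 : Reach 1952939 34816 := Reach.step r33 D01.t0 rfl rfl
theorem r35 : Reach 2014739 35840 := Reach.step r34 D01.t1 rfl rfl
theorem r36 : Reach 2076881 36864 := Reach.step r35 D01.t2 rfl rfl
theorem r37 : Reach 2140091 37888 := Reach.step r36 D01.t3 rfl rfl
theorem r38 : Reach 2202377 38912 := Reach.step r37 D01.t4 rfl rfl
theorem r39 : Reach 2263763 39936 := Reach.step r38 D01.t5 rfl rfl
theorem r40 : Reach 2325227 40960 := Reach.step r39 D01.t6 rfl rfl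
theorem r41 : Reach 2387873 41984 := Reach.step r40 D01.t7 rfl rfl
theorem r42 : Reach 2451377 43008 := Reach.step r41 D01.t8 rfl rfl
theorem r43 : Reach 2513363 44032 := Reach.step r42 D01.t9 rfl rfl
theorem r44 : Reach 2577539 45056 := Reach.step r43 D01.t10 rfl rfl
theorem r45 : Reach 2641649 46080 := Reach.step r44 D01.t11 rfl rfl
theorem r46 : Reach 2703341 47104 := Reach.step r45 D01.t12 rfl rfl
theorem r47 : Reach 2767019 48128 := Reach.step r46 D01.t13 rfl rfl
theorem r48 : Reach 2827553 49152 := Reach.step r47 D01.t14 rfl rfl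
theorem r49 : Reach 2890001 50176 := Reach.step r48 D01.t15 rfl rfl
theorem r50 : Reach 2954513 51200 := Reach.step r49 D01.t16 rfl rfl
theorem r51 : Reach 3017471 52224 := Reach.step r50 D01.t17 rfl rfl
theorem r52 : Reach 3079283 53248 := Reach.step r51 D01.t18 rfl rfl
theorem r53 : Reach 3143027 54272 := Reach.step r52 D01.t19 rfl rfl
theorem r54 : Reach 3204473 55296 := Reach.step r53 D01.t20 rfl rfl
theorem r55 : Reach 3268481 56320 := Reach.step r54 D01.t21 rfl rfl
theorem r56 : Reach 3329147 57344 := Reach.step r55 D01.t22 rfl rfl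
theorem r57 : Reach 3394691 58368 := Reach.step r56 D01.t23 rfl rfl
theorem r58 : Reach 3458177 59392 := Reach.step r57 D01.t24 rfl rfl
theorem r59 : Reach 3523337 60416 := Reach.step r58 D01.t25 rfl rfl
theorem r60 : Reach 3586553 61440 := Reach.step r59 D01.t26 rfl rfl
theorem r61 : Reach 3649241 62464 := Reach.step r60 D01.t27 rfl rfl
theorem r62 : Reach 3712073 63488 := Reach.step r61 D01.t28 rfl rfl
theorem r63 : Reach 3778163 64512 := Reach.step r62 D01.t29 rfl rfl
theorem r64 : Reach 3844067 65536 := Reach.step r63 D01.t30 rfl rfl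
theorem r65 : Reach 3909083 66560 := Reach.step r64 D01.t31 rfl rfl
theorem r66 : Reach 3973787 67584 := Reach.step r65 D01.t32 rfl rfl
theorem r67 : Reach 4038161 68608 := Reach.step r66 D02.t0 rfl rfl
theorem r68 : Reach 4105169 69632 := Reach.step r67 D02.t1 rfl rfl
theorem r69 : Reach 4168379 70656 := Reach.step r68 D02.t2 rfl rfl
theorem r70 : Reach 4233611 71680 := Reach.step r69 D02.t3 rfl rfl
theorem r71 : Reach 4299803 72704 := Reach.step r70 D02.t4 rfl rfl
theorem r72 : Reach 4368323 73728 := Reach.step r71 D02.t5 rfl rfl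
theorem r73 : Reach 4432619 74752 := Reach.step r72 D02.t6 rfl rfl
theorem r74 : Reach 4496099 75776 := Reach.step r73 D02.t7 rfl rfl
theorem r75 : Reach 4563641 76800 := Reach.step r74 D02.t8 rfl rfl
theorem r76 : Reach 4628411 77824 := Reach.step r75 D02.t9 rfl rfl
theorem r77 : Reach 4693631 78848 := Reach.step r76 D02.t10 rfl rfl
theorem r78 : Reach 4759427 79872 := Reach.step r77 D02.t11 rfl rfl
theorem r79 : Reach 4825091 80896 := Reach.step r78 D02.t12 rfl rfl
theorem r80 : Reach 4888649 81920 := Reach.step r79 D02.t13 rfl rfl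
theorem r81 : Reach 4953899 82944 := Reach.step r80 D02.t14 rfl rfl
theorem r82 : Reach 5018843 83968 := Reach.step r81 D02.t15 rfl rfl
theorem r83 : Reach 5082587 84992 := Reach.step r82 D02.t16 rfl rfl
theorem r84 : Reach 5150513 86016 := Reach.step r83 D02.t17 rfl rfl
theorem r85 : Reach 5217449 87040 := Reach.step r84 D02.t18 rfl rfl
theorem r86 : Reach 5281433 88064 := Reach.step r85 D02.t19 rfl rfl
theorem r87 : Reach 5347787 89088 := Reach.step r86 D02.t20 rfl rfl
theorem r88 : Reach 5413241 90112 := Reach.step r87 D02.t21 rfl rfl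
theorem r89 : Reach 5477429 91136 := Reach.step r88 D02.t22 rfl rfl
theorem r90 : Reach 5542457 92160 := Reach.step r89 D02.t23 rfl rfl
theorem r91 : Reach 5607593 93184 := Reach.step r90 D02.t24 rfl rfl
theorem r92 : Reach 5675849 94208 := Reach.step r91 D02.t25 rfl rfl
theorem r93 : Reach 5742137 95232 := Reach.step r92 D02.t26 rfl rfl
theorem r94 : Reach 5809499 96256 := Reach.step r93 D02.t27 rfl rfl
theorem r95 : Reach 5874023 97280 := Reach.step r94 D02.t28 rfl rfl
theorem r96 : Reach 5939849 98304 := Reach.step r95 D02.t29 rfl rfl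
theorem r97 : Reach 6007223 99328 := Reach.step r96 D02.t30 rfl rfl
theorem r98 : Reach 6073733 100352 := Reach.step r97 D02.t31 rfl rfl
theorem r99 : Reach 6140153 101376 := Reach.step r98 D02.t32 rfl rfl
theorem r100 : Reach 6205097 102400 := Reach.step r99 D03.t0 rfl rfl
theorem r101 : Reach 6274049 103424 := Reach.step r100 D03.t1 rfl rfl
theorem r102 : Reach 6338393 104448 := Reach.step r101 D03.t2 rfl rfl
theorem r103 : Reach 6406601 105472 := Reach.step r102 D03.t3 rfl rfl
theorem r104 : Reach 6473723 106496 := Reach.step r103 D03.t4 rfl rfl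
theorem r105 : Reach 6538409 107520 := Reach.step r104 D03.t5 rfl rfl
theorem r106 : Reach 6606779 108544 := Reach.step r105 D03.t6 rfl rfl
theorem r107 : Reach 6672881 109568 := Reach.step r106 D03.t7 rfl rfl
theorem r108 : Reach 6739043 110592 := Reach.step r107 D03.t8 rfl rfl
theorem r109 : Reach 6806609 111616 := Reach.step r108 D03.t9 rfl rfl
theorem r110 : Reach 6874163 112640 := Reach.step r109 D03.t10 rfl rfl
theorem r111 : Reach 6940841 113664 := Reach.step r110 D03.t11 rfl rfl
theorem r112 : Reach 7009019 114688 := Reach.step r111 D03.t12 rfl rfl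
theorem r113 : Reach 7075337 115712 := Reach.step r112 D03.t13 rfl rfl
theorem r114 : Reach 7143233 116736 := Reach.step r113 D03.t14 rfl rfl
theorem r115 : Reach 7208807 117760 := Reach.step r114 D03.t15 rfl rfl
theorem r116 : Reach 7275809 118784 := Reach.step r115 D03.t16 rfl rfl
theorem r117 : Reach 7345043 119808 := Reach.step r116 D03.t17 rfl rfl
theorem r118 : Reach 7411067 120832 := Reach.step r117 D03.t18 rfl rfl
theorem r119 : Reach 7479803 121856 := Reach.step r118 D03.t19 rfl rfl
theorem r120 : Reach 7548467 122880 := Reach.step r119 D03.t20 rfl rfl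
theorem r121 : Reach 7613651 123904 := Reach.step r120 D03.t21 rfl rfl
theorem r122 : Reach 7679993 124928 := Reach.step r121 D03.t22 rfl rfl
theorem r123 : Reach 7748579 125952 := Reach.step r122 D03.t23 rfl rfl
theorem r124 : Reach 7816931 126976 := Reach.step r123 D03.t24 rfl rfl
theorem r125 : Reach 7885193 128000 := Reach.step r124 D03.t25 rfl rfl
theorem r126 : Reach 7952099 129024 := Reach.step r125 D03.t26 rfl rfl
theorem r127 : Reach 8019827 130048 := Reach.step r126 D03.t27 rfl rfl
theorem r128 : Reach 8085281 131072 := Reach.step r127 D03.t28 rfl rfl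
theorem r129 : Reach 8155283 132096 := Reach.step r128 D03.t29 rfl rfl
theorem r130 : Reach 8224673 133120 := Reach.step r129 D03.t30 rfl rfl
theorem r131 : Reach 8291729 134144 := Reach.step r130 D03.t31 rfl rfl
theorem r132 : Reach 8359289 135168 := Reach.step r131 D03.t32 rfl rfl
theorem r133 : Reach 8429123 136192 := Reach.step r132 D04.t0 rfl rfl
theorem r134 : Reach 8495873 137216 := Reach.step r133 D04.t1 rfl rfl
theorem r135 : Reach 8563073 138240 := Reach.step r134 D04.t2 rfl rfl
theorem r136 : Reach 8634179 139264 := Reach.step r135 D04.t3 rfl rfl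
theorem r137 : Reach 8702777 140288 := Reach.step r136 D04.t4 rfl rfl
theorem r138 : Reach 8773481 141312 := Reach.step r137 D04.t5 rfl rfl
theorem r139 : Reach 8842877 142336 := Reach.step r138 D04.t6 rfl rfl
theorem r140 : Reach 8913563 143360 := Reach.step r139 D04.t7 rfl rfl
theorem r141 : Reach 8981177 144384 := Reach.step r140 D04.t8 rfl rfl
theorem r142 : Reach 9047849 145408 := Reach.step r141 D04.t9 rfl rfl
theorem r143 : Reach 9114971 146432 := Reach.step r142 D04.t10 rfl rfl
theorem r144 : Reach 9182963 147456 := Reach.step r143 D04.t11 rfl rfl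
theorem r145 : Reach 9249689 148480 := Reach.step r144 D04.t12 rfl rfl
theorem r146 : Reach 9316961 149504 := Reach.step r145 D04.t13 rfl rfl
theorem r147 : Reach 9388409 150528 := Reach.step r146 D04.t14 rfl rfl
theorem r148 : Reach 9457067 151552 := Reach.step r147 D04.t15 rfl rfl
theorem r149 : Reach 9526193 152576 := Reach.step r148 D04.t16 rfl rfl
theorem r150 : Reach 9592889 153600 := Reach.step r149 D04.t17 rfl rfl
theorem r151 : Reach 9660467 154624 := Reach.step r150 D04.t18 rfl rfl
theorem r152 : Reach 9728651 155648 := Reach.step r151 D04.t19 rfl rfl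
theorem r153 : Reach 9800003 156672 := Reach.step r152 D04.t20 rfl rfl
theorem r154 : Reach 9869267 157696 := Reach.step r153 D04.t21 rfl rfl
theorem r155 : Reach 9936893 158720 := Reach.step r154 D04.t22 rfl rfl
theorem r156 : Reach 10005329 159744 := Reach.step r155 D04.t23 rfl rfl
theorem r157 : Reach 10071203 160768 := Reach.step r156 D04.t24 rfl rfl
theorem r158 : Reach 10141739 161792 := Reach.step r157 D04.t25 rfl rfl
theorem r159 : Reach 10210667 162816 := Reach.step r158 D04.t26 rfl rfl
theorem r160 : Reach 10277147 163840 := Reach.step r159 D04.t27 rfl rfl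
theorem r161 : Reach 10345649 164864 := Reach.step r160 D04.t28 rfl rfl
theorem r162 : Reach 10414577 165888 := Reach.step r161 D04.t29 rfl rfl
theorem r163 : Reach 10486241 166912 := Reach.step r162 D04.t30 rfl rfl
theorem r164 : Reach 10554707 167936 := Reach.step r163 D04.t31 rfl rfl
theorem r165 : Reach 10623491 168960 := Reach.step r164 D04.t32 rfl rfl
theorem r166 : Reach 10693211 169984 := Reach.step r165 D05.t0 rfl rfl
theorem r167 : Reach 10762889 171008 := Reach.step r166 D05.t1 rfl rfl
theorem r168 : Reach 10833587 172032 := Reach.step r167 D05.t2 rfl rfl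
theorem r169 : Reach 10900577 173056 := Reach.step r168 D05.t3 rfl rfl
theorem r170 : Reach 10970987 174080 := Reach.step r169 D05.t4 rfl rfl
theorem r171 : Reach 11042531 175104 := Reach.step r170 D05.t5 rfl rfl
theorem r172 : Reach 11109017 176128 := Reach.step r171 D05.t6 rfl rfl
theorem r173 : Reach 11177417 177152 := Reach.step r172 D05.t7 rfl rfl
theorem r174 : Reach 11249009 178176 := Reach.step r173 D05.t8 rfl rfl
theorem r175 : Reach 11316923 179200 := Reach.step r174 D05.t9 rfl rfl
theorem r176 : Reach 11388137 180224 := Reach.step r175 D05.t10 rfl rfl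
theorem r177 : Reach 11456897 181248 := Reach.step r176 D05.t11 rfl rfl
theorem r178 : Reach 11527049 182272 := Reach.step r177 D05.t12 rfl rfl
theorem r179 : Reach 11595161 183296 := Reach.step r178 D05.t13 rfl rfl
theorem r180 : Reach 11664041 184320 := Reach.step r179 D05.t14 rfl rfl
theorem r181 : Reach 11733467 185344 := Reach.step r180 D05.t15 rfl rfl
theorem r182 : Reach 11802377 186368 := Reach.step r181 D05.t16 rfl rfl
theorem r183 : Reach 11872241 187392 := Reach.step r182 D05.t17 rfl rfl
theorem r184 : Reach 11938769 188416 := Reach.step r183 D05.t18 rfl rfl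
theorem r185 : Reach 12006749 189440 := Reach.step r184 D05.t19 rfl rfl
theorem r186 : Reach 12074141 190464 := Reach.step r185 D05.t20 rfl rfl
theorem r187 : Reach 12144563 191488 := Reach.step r186 D05.t21 rfl rfl
theorem r188 : Reach 12214523 192512 := Reach.step r187 D05.t22 rfl rfl
theorem r189 : Reach 12285587 193536 := Reach.step r188 D05.t23 rfl rfl
theorem r190 : Reach 12353609 194560 := Reach.step r189 D05.t24 rfl rfl
theorem r191 : Reach 12422777 195584 := Reach.step r190 D05.t25 rfl rfl
theorem r192 : Reach 12492209 196608 := Reach.step r191 D05.t26 rfl rfl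
theorem r193 : Reach 12563393 197632 := Reach.step r192 D05.t27 rfl rfl
theorem r194 : Reach 12630731 198656 := Reach.step r193 D05.t28 rfl rfl
theorem r195 : Reach 12699209 199680 := Reach.step r194 D05.t29 rfl rfl
theorem r196 : Reach 12769529 200704 := Reach.step r195 D05.t30 rfl rfl
theorem r197 : Reach 12840203 201728 := Reach.step r196 D05.t31 rfl rfl
theorem r198 : Reach 12907343 202752 := Reach.step r197 D05.t32 rfl rfl
theorem r199 : Reach 12978593 203776 := Reach.step r198 D06.t0 rfl rfl
theorem r200 : Reach 13049417 204800 := Reach.step r199 D06.t1 rfl rfl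
theorem r201 : Reach 13119527 205824 := Reach.step r200 D06.t2 rfl rfl
theorem r202 : Reach 13187261 206848 := Reach.step r201 D06.t3 rfl rfl
theorem r203 : Reach 13255397 207872 := Reach.step r202 D06.t4 rfl rfl
theorem r204 : Reach 13324523 208896 := Reach.step r203 D06.t5 rfl rfl
theorem r205 : Reach 13393883 209920 := Reach.step r204 D06.t6 rfl rfl
theorem r206 : Reach 13465973 210944 := Reach.step r205 D06.t7 rfl rfl
theorem r207 : Reach 13536071 211968 := Reach.step r206 D06.t8 rfl rfl
theorem r208 : Reach 13607459 212992 := Reach.step r207 D06.t9 rfl rfl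
theorem r209 : Reach 13676009 214016 := Reach.step r208 D06.t10 rfl rfl
theorem r210 : Reach 13747049 215040 := Reach.step r209 D06.t11 rfl rfl
theorem r211 : Reach 13817897 216064 := Reach.step r210 D06.t12 rfl rfl
theorem r212 : Reach 13887899 217088 := Reach.step r211 D06.t13 rfl rfl
theorem r213 : Reach 13958501 218112 := Reach.step r212 D06.t14 rfl rfl
theorem r214 : Reach 14028731 219136 := Reach.step r213 D06.t15 rfl rfl
theorem r215 : Reach 14097899 220160 := Reach.step r214 D06.t16 rfl rfl
theorem r216 : Reach 14167259 221184 := Reach.step r215 D06.t17 rfl rfl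
theorem r217 : Reach 14239811 222208 := Reach.step r216 D06.t18 rfl rfl
theorem r218 : Reach 14310203 223232 := Reach.step r217 D06.t19 rfl rfl
theorem r219 : Reach 14381441 224256 := Reach.step r218 D06.t20 rfl rfl
theorem r220 : Reach 14451893 225280 := Reach.step r219 D06.t21 rfl rfl
theorem r221 : Reach 14522561 226304 := Reach.step r220 D06.t22 rfl rfl
theorem r222 : Reach 14591267 227328 := Reach.step r221 D06.t23 rfl rfl
theorem r223 : Reach 14664539 228352 := Reach.step r222 D06.t24 rfl rfl
theorem r224 : Reach 14737139 229376 := Reach.step r223 D06.t25 rfl rfl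
theorem r225 : Reach 14808569 230400 := Reach.step r224 D06.t26 rfl rfl
theorem r226 : Reach 14879297 231424 := Reach.step r225 D06.t27 rfl rfl
theorem r227 : Reach 14947043 232448 := Reach.step r226 D06.t28 rfl rfl
theorem r228 : Reach 15017159 233472 := Reach.step r227 D06.t29 rfl rfl
theorem r229 : Reach 15087707 234496 := Reach.step r228 D06.t30 rfl rfl
theorem r230 : Reach 15157451 235520 := Reach.step r229 D06.t31 rfl rfl
theorem r231 : Reach 15226793 236544 := Reach.step r230 D06.t32 rfl rfl
theorem r232 : Reach 15294689 237568 := Reach.step r231 D07.t0 rfl rfl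
theorem r233 : Reach 15362111 238592 := Reach.step r232 D07.t1 rfl rfl
theorem r234 : Reach 15434849 239616 := Reach.step r233 D07.t2 rfl rfl
theorem r235 : Reach 15507017 240640 := Reach.step r234 D07.t3 rfl rfl
theorem r236 : Reach 15578609 241664 := Reach.step r235 D07.t4 rfl rfl
theorem r237 : Reach 15648497 242688 := Reach.step r236 D07.t5 rfl rfl
theorem r238 : Reach 15718427 243712 := Reach.step r237 D07.t6 rfl rfl
theorem r239 : Reach 15790889 244736 := Reach.step r238 D07.t7 rfl rfl
theorem r240 : Reach 15860267 245760 := Reach.step r239 D07.t8 rfl rfl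
theorem r241 : Reach 15932297 246784 := Reach.step r240 D07.t9 rfl rfl
theorem r242 : Reach 16003913 247808 := Reach.step r241 D07.t10 rfl rfl
theorem r243 : Reach 16075979 248832 := Reach.step r242 D07.t11 rfl rfl
theorem r244 : Reach 16146593 249856 := Reach.step r243 D07.t12 rfl rfl
theorem r245 : Reach 16218299 250880 := Reach.step r244 D07.t13 rfl rfl
theorem r246 : Reach 16289321 251904 := Reach.step r245 D07.t14 rfl rfl
theorem r247 : Reach 16359137 252928 := Reach.step r246 D07.t15 rfl rfl
theorem r248 : Reach 16430633 253952 := Reach.step r247 D07.t16 rfl rfl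
theorem r249 : Reach 16501523 254976 := Reach.step r248 D07.t17 rfl rfl
theorem r250 : Reach 16571417 256000 := Reach.step r249 D07.t18 rfl rfl
theorem r251 : Reach 16641137 257024 := Reach.step r250 D07.t19 rfl rfl
theorem r252 : Reach 16712489 258048 := Reach.step r251 D07.t20 rfl rfl
theorem r253 : Reach 16783241 259072 := Reach.step r252 D07.t21 rfl rfl
theorem r254 : Reach 16855739 260096 := Reach.step r253 D07.t22 rfl rfl
theorem r255 : Reach 16927259 261120 := Reach.step r254 D07.t23 rfl rfl
theorem r256 : Reach 17000483 262144 := Reach.step r255 D07.t24 rfl rfl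
theorem r257 : Reach 17070233 263168 := Reach.step r256 D07.t25 rfl rfl
theorem r258 : Reach 17143271 264192 := Reach.step r257 D07.t26 rfl rfl
theorem r259 : Reach 17213363 265216 := Reach.step r258 D07.t27 rfl rfl
theorem r260 : Reach 17285729 266240 := Reach.step r259 D07.t28 rfl rfl
theorem r261 : Reach 17355329 267264 := Reach.step r260 D07.t29 rfl rfl
theorem r262 : Reach 17423177 268288 := Reach.step r261 D07.t30 rfl rfl
theorem r263 : Reach 17493227 269312 := Reach.step r262 D07.t31 rfl rfl
theorem r264 : Reach 17563979 270336 := Reach.step r263 D07.t32 rfl rfl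
theorem r265 : Reach 17633417 271360 := Reach.step r264 D08.t0 rfl rfl
theorem r266 : Reach 17703473 272384 := Reach.step r265 D08.t1 rfl rfl
theorem r267 : Reach 17773841 273408 := Reach.step r266 D08.t2 rfl rfl
theorem r268 : Reach 17845379 274432 := Reach.step r267 D08.t3 rfl rfl
theorem r269 : Reach 17915747 275456 := Reach.step r268 D08.t4 rfl rfl
theorem r270 : Reach 17984177 276480 := Reach.step r269 D08.t5 rfl rfl
theorem r271 : Reach 18056147 277504 := Reach.step r270 D08.t6 rfl rfl
theorem r272 : Reach 18130019 278528 := Reach.step r271 D08.t7 rfl rfl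
theorem r273 : Reach 18200873 279552 := Reach.step r272 D08.t8 rfl rfl
theorem r274 : Reach 18272459 280576 := Reach.step r273 D08.t9 rfl rfl
theorem r275 : Reach 18341867 281600 := Reach.step r274 D08.t10 rfl rfl
theorem r276 : Reach 18414611 282624 := Reach.step r275 D08.t11 rfl rfl
theorem r277 : Reach 18488993 283648 := Reach.step r276 D08.t12 rfl rfl
theorem r278 : Reach 18560681 284672 := Reach.step r277 D08.t13 rfl rfl
theorem r279 : Reach 18630779 285696 := Reach.step r278 D08.t14 rfl rfl
theorem r280 : Reach 18702449 286720 := Reach.step r279 D08.t15 rfl rfl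
theorem r281 : Reach 18772619 287744 := Reach.step r280 D08.t16 rfl rfl
theorem r282 : Reach 18842633 288768 := Reach.step r281 D08.t17 rfl rfl
theorem r283 : Reach 18916031 289792 := Reach.step r282 D08.t18 rfl rfl
theorem r284 : Reach 18987041 290816 := Reach.step r283 D08.t19 rfl rfl
theorem r285 : Reach 19061657 291840 := Reach.step r284 D08.t20 rfl rfl
theorem r286 : Reach 19135547 292864 := Reach.step r285 D08.t21 rfl rfl
theorem r287 : Reach 19209683 293888 := Reach.step r286 D08.t22 rfl rfl
theorem r288 : Reach 19281737 294912 := Reach.step r287 D08.t23 rfl rfl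
theorem r289 : Reach 19353953 295936 := Reach.step r288 D08.t24 rfl rfl
theorem r290 : Reach 19422899 296960 := Reach.step r289 D08.t25 rfl rfl
theorem r291 : Reach 19493897 297984 := Reach.step r290 D08.t26 rfl rfl
theorem r292 : Reach 19565873 299008 := Reach.step r291 D08.t27 rfl rfl
theorem r293 : Reach 19637201 300032 := Reach.step r292 D08.t28 rfl rfl
theorem r294 : Reach 19709219 301056 := Reach.step r293 D08.t29 rfl rfl
theorem r295 : Reach 19781171 302080 := Reach.step r294 D08.t30 rfl rfl
theorem r296 : Reach 19851701 303104 := Reach.step r295 D08.t31 rfl rfl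
theorem r297 : Reach 19920827 304128 := Reach.step r296 D08.t32 rfl rfl
theorem r298 : Reach 19991483 305152 := Reach.step r297 D09.t0 rfl rfl
theorem r299 : Reach 20064371 306176 := Reach.step r298 D09.t1 rfl rfl
theorem r300 : Reach 20134379 307200 := Reach.step r299 D09.t2 rfl rfl
theorem r301 : Reach 20204729 308224 := Reach.step r300 D09.t3 rfl rfl
theorem r302 : Reach 20279003 309248 := Reach.step r301 D09.t4 rfl rfl
theorem r303 : Reach 20351267 310272 := Reach.step r302 D09.t5 rfl rfl
theorem r304 : Reach 20423177 311296 := Reach.step r303 D09.t6 rfl rfl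
theorem r305 : Reach 20495201 312320 := Reach.step r304 D09.t7 rfl rfl
theorem r306 : Reach 20564969 313344 := Reach.step r305 D09.t8 rfl rfl
theorem r307 : Reach 20637569 314368 := Reach.step r306 D09.t9 rfl rfl
theorem r308 : Reach 20710499 315392 := Reach.step r307 D09.t10 rfl rfl
theorem r309 : Reach 20782571 316416 := Reach.step r308 D09.t11 rfl rfl
theorem r310 : Reach 20856041 317440 := Reach.step r309 D09.t12 rfl rfl
theorem r311 : Reach 20928179 318464 := Reach.step r310 D09.t13 rfl rfl
theorem r312 : Reach 20999057 319488 := Reach.step r311 D09.t14 rfl rfl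
theorem r313 : Reach 21070937 320512 := Reach.step r312 D09.t15 rfl rfl
theorem r314 : Reach 21142361 321536 := Reach.step r313 D09.t16 rfl rfl
theorem r315 : Reach 21212423 322560 := Reach.step r314 D09.t17 rfl rfl
theorem r316 : Reach 21284609 323584 := Reach.step r315 D09.t18 rfl rfl
theorem r317 : Reach 21358661 324608 := Reach.step r316 D09.t19 rfl rfl
theorem r318 : Reach 21431489 325632 := Reach.step r317 D09.t20 rfl rfl
theorem r319 : Reach 21502697 326656 := Reach.step r318 D09.t21 rfl rfl
theorem r320 : Reach 21573779 327680 := Reach.step r319 D09.t22 rfl rfl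
theorem r321 : Reach 21646721 328704 := Reach.step r320 D09.t23 rfl rfl
theorem r322 : Reach 21719657 329728 := Reach.step r321 D09.t24 rfl rfl
theorem r323 : Reach 21788771 330752 := Reach.step r322 D09.t25 rfl rfl
theorem r324 : Reach 21863753 331776 := Reach.step r323 D09.t26 rfl rfl
theorem r325 : Reach 21934691 332800 := Reach.step r324 D09.t27 rfl rfl
theorem r326 : Reach 22006529 333824 := Reach.step r325 D09.t28 rfl rfl
theorem r327 : Reach 22079723 334848 := Reach.step r326 D09.t29 rfl rfl
theorem r328 : Reach 22152281 335872 := Reach.step r327 D09.t30 rfl rfl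
theorem r329 : Reach 22226177 336896 := Reach.step r328 D09.t31 rfl rfl
theorem r330 : Reach 22297937 337920 := Reach.step r329 D09.t32 rfl rfl
theorem r331 : Reach 22370321 338944 := Reach.step r330 D10.t0 rfl rfl
theorem r332 : Reach 22439993 339968 := Reach.step r331 D10.t1 rfl rfl
theorem r333 : Reach 22514369 340992 := Reach.step r332 D10.t2 rfl rfl
theorem r334 : Reach 22586027 342016 := Reach.step r333 D10.t3 rfl rfl
theorem r335 : Reach 22657529 343040 := Reach.step r334 D10.t4 rfl rfl
theorem r336 : Reach 22727291 344064 := Reach.step r335 D10.t5 rfl rfl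
theorem r337 : Reach 22799801 345088 := Reach.step r336 D10.t6 rfl rfl
theorem r338 : Reach 22874051 346112 := Reach.step r337 D10.t7 rfl rfl
theorem r339 : Reach 22943819 347136 := Reach.step r338 D10.t8 rfl rfl
theorem r340 : Reach 23012687 348160 := Reach.step r339 D10.t9 rfl rfl
theorem r341 : Reach 23085431 349184 := Reach.step r340 D10.t10 rfl rfl
theorem r342 : Reach 23155817 350208 := Reach.step r341 D10.t11 rfl rfl
theorem r343 : Reach 23230937 351232 := Reach.step r342 D10.t12 rfl rfl
theorem r344 : Reach 23304107 352256 := Reach.step r343 D10.t13 rfl rfl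
theorem r345 : Reach 23375411 353280 := Reach.step r344 D10.t14 rfl rfl
theorem r346 : Reach 23448833 354304 := Reach.step r345 D10.t15 rfl rfl
theorem r347 : Reach 23522003 355328 := Reach.step r346 D10.t16 rfl rfl
theorem r348 : Reach 23593217 356352 := Reach.step r347 D10.t17 rfl rfl
theorem r349 : Reach 23665361 357376 := Reach.step r348 D10.t18 rfl rfl
theorem r350 : Reach 23739929 358400 := Reach.step r349 D10.t19 rfl rfl
theorem r351 : Reach 23811539 359424 := Reach.step r350 D10.t20 rfl rfl
theorem r352 : Reach 23886713 360448 := Reach.step r351 D10.t21 rfl rfl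
theorem r353 : Reach 23960579 361472 := Reach.step r352 D10.t22 rfl rfl
theorem r354 : Reach 24031739 362496 := Reach.step r353 D10.t23 rfl rfl
theorem r355 : Reach 24103949 363520 := Reach.step r354 D10.t24 rfl rfl
theorem r356 : Reach 24177431 364544 := Reach.step r355 D10.t25 rfl rfl
theorem r357 : Reach 24250703 365568 := Reach.step r356 D10.t26 rfl rfl
theorem r358 : Reach 24323921 366592 := Reach.step r357 D10.t27 rfl rfl
theorem r359 : Reach 24397553 367616 := Reach.step r358 D10.t28 rfl rfl
theorem r360 : Reach 24469787 368640 := Reach.step r359 D10.t29 rfl rfl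
theorem r361 : Reach 24541721 369664 := Reach.step r360 D10.t30 rfl rfl
theorem r362 : Reach 24615683 370688 := Reach.step r361 D10.t31 rfl rfl
theorem r363 : Reach 24688571 371712 := Reach.step r362 D10.t32 rfl rfl
theorem r364 : Reach 24761873 372736 := Reach.step r363 D11.t0 rfl rfl
theorem r365 : Reach 24833147 373760 := Reach.step r364 D11.t1 rfl rfl
theorem r366 : Reach 24905417 374784 := Reach.step r365 D11.t2 rfl rfl
theorem r367 : Reach 24977339 375808 := Reach.step r366 D11.t3 rfl rfl
theorem r368 : Reach 25053401 376832 := Reach.step r367 D11.t4 rfl rfl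
theorem r369 : Reach 25124243 377856 := Reach.step r368 D11.t5 rfl rfl
theorem r370 : Reach 25198193 378880 := Reach.step r369 D11.t6 rfl rfl
theorem r371 : Reach 25270967 379904 := Reach.step r370 D11.t7 rfl rfl
theorem r372 : Reach 25343369 380928 := Reach.step r371 D11.t8 rfl rfl
theorem r373 : Reach 25415129 381952 := Reach.step r372 D11.t9 rfl rfl
theorem r374 : Reach 25488737 382976 := Reach.step r373 D11.t10 rfl rfl
theorem r375 : Reach 25560251 384000 := Reach.step r374 D11.t11 rfl rfl
theorem r376 : Reach 25634123 385024 := Reach.step r375 D11.t12 rfl rfl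
theorem r377 : Reach 25706729 386048 := Reach.step r376 D11.t13 rfl rfl
theorem r378 : Reach 25780763 387072 := Reach.step r377 D11.t14 rfl rfl
theorem r379 : Reach 25854209 388096 := Reach.step r378 D11.t15 rfl rfl
theorem r380 : Reach 25926827 389120 := Reach.step r379 D11.t16 rfl rfl
theorem r381 : Reach 25997633 390144 := Reach.step r380 D11.t17 rfl rfl
theorem r382 : Reach 26072273 391168 := Reach.step r381 D11.t18 rfl rfl
theorem r383 : Reach 26144081 392192 := Reach.step r382 D11.t19 rfl rfl
theorem r384 : Reach 26218763 393216 := Reach.step r383 D11.t20 rfl rfl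
theorem r385 : Reach 26291267 394240 := Reach.step r384 D11.t21 rfl rfl
theorem r386 : Reach 26364281 395264 := Reach.step r385 D11.t22 rfl rfl
theorem r387 : Reach 26436803 396288 := Reach.step r386 D11.t23 rfl rfl
theorem r388 : Reach 26509361 397312 := Reach.step r387 D11.t24 rfl rfl
theorem r389 : Reach 26582363 398336 := Reach.step r388 D11.t25 rfl rfl
theorem r390 : Reach 26656211 399360 := Reach.step r389 D11.t26 rfl rfl
theorem r391 : Reach 26730287 400384 := Reach.step r390 D11.t27 rfl rfl
theorem r392 : Reach 26803649 401408 := Reach.step r391 D11.t28 rfl rfl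
theorem r393 : Reach 26875067 402432 := Reach.step r392 D11.t29 rfl rfl
theorem r394 : Reach 26946473 403456 := Reach.step r393 D11.t30 rfl rfl
theorem r395 : Reach 27017873 404480 := Reach.step r394 D11.t31 rfl rfl
theorem r396 : Reach 27092489 405504 := Reach.step r395 D11.t32 rfl rfl
theorem r397 : Reach 27166907 406528 := Reach.step r396 D12.t0 rfl rfl
theorem r398 : Reach 27240929 407552 := Reach.step r397 D12.t1 rfl rfl
theorem r399 : Reach 27315809 408576 := Reach.step r398 D12.t2 rfl rfl
theorem r400 : Reach 27390563 409600 := Reach.step r399 D12.t3 rfl rfl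
theorem r401 : Reach 27462257 410624 := Reach.step r400 D12.t4 rfl rfl
theorem r402 : Reach 27536849 411648 := Reach.step r401 D12.t5 rfl rfl
theorem r403 : Reach 27610619 412672 := Reach.step r402 D12.t6 rfl rfl
theorem r404 : Reach 27689513 413696 := Reach.step r403 D12.t7 rfl rfl
theorem r405 : Reach 27760571 414720 := Reach.step r404 D12.t8 rfl rfl
theorem r406 : Reach 27833297 415744 := Reach.step r405 D12.t9 rfl rfl
theorem r407 : Reach 27906713 416768 := Reach.step r406 D12.t10 rfl rfl
theorem r408 : Reach 27979643 417792 := Reach.step r407 D12.t11 rfl rfl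
theorem r409 : Reach 28052267 418816 := Reach.step r408 D12.t12 rfl rfl
theorem r410 : Reach 28125473 419840 := Reach.step r409 D12.t13 rfl rfl
theorem r411 : Reach 28197833 420864 := Reach.step r410 D12.t14 rfl rfl
theorem r412 : Reach 28269107 421888 := Reach.step r411 D12.t15 rfl rfl
theorem r413 : Reach 28343489 422912 := Reach.step r412 D12.t16 rfl rfl
theorem r414 : Reach 28417721 423936 := Reach.step r413 D12.t17 rfl rfl
theorem r415 : Reach 28490993 424960 := Reach.step r414 D12.t18 rfl rfl
theorem r416 : Reach 28564313 425984 := Reach.step r415 D12.t19 rfl rfl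
theorem r417 : Reach 28635881 427008 := Reach.step r416 D12.t20 rfl rfl
theorem r418 : Reach 28709579 428032 := Reach.step r417 D12.t21 rfl rfl
theorem r419 : Reach 28783421 429056 := Reach.step r418 D12.t22 rfl rfl
theorem r420 : Reach 28857443 430080 := Reach.step r419 D12.t23 rfl rfl
theorem r421 : Reach 28931267 431104 := Reach.step r420 D12.t24 rfl rfl
theorem r422 : Reach 29005289 432128 := Reach.step r421 D12.t25 rfl rfl
theorem r423 : Reach 29078507 433152 := Reach.step r422 D12.t26 rfl rfl
theorem r424 : Reach 29152259 434176 := Reach.step r423 D12.t27 rfl rfl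
theorem r425 : Reach 29226833 435200 := Reach.step r424 D12.t28 rfl rfl
theorem r426 : Reach 29301443 436224 := Reach.step r425 D12.t29 rfl rfl
theorem r427 : Reach 29376689 437248 := Reach.step r426 D12.t30 rfl rfl
theorem r428 : Reach 29450873 438272 := Reach.step r427 D12.t31 rfl rfl
theorem r429 : Reach 29524667 439296 := Reach.step r428 D12.t32 rfl rfl
theorem r430 : Reach 29594633 440320 := Reach.step r429 D13.t0 rfl rfl
theorem r431 : Reach 29668187 441344 := Reach.step r430 D13.t1 rfl rfl
theorem r432 : Reach 29736191 442368 := Reach.step r431 D13.t2 rfl rfl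
theorem r433 : Reach 29810777 443392 := Reach.step r432 D13.t3 rfl rfl
theorem r434 : Reach 29883731 444416 := Reach.step r433 D13.t4 rfl rfl
theorem r435 : Reach 29957003 445440 := Reach.step r434 D13.t5 rfl rfl
theorem r436 : Reach 30031601 446464 := Reach.step r435 D13.t6 rfl rfl
theorem r437 : Reach 30103937 447488 := Reach.step r436 D13.t7 rfl rfl
theorem r438 : Reach 30178787 448512 := Reach.step r437 D13.t8 rfl rfl
theorem r439 : Reach 30253667 449536 := Reach.step r438 D13.t9 rfl rfl
theorem r440 : Reach 30327449 450560 := Reach.step r439 D13.t10 rfl rfl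
theorem r441 : Reach 30402083 451584 := Reach.step r440 D13.t11 rfl rfl
theorem r442 : Reach 30477257 452608 := Reach.step r441 D13.t12 rfl rfl
theorem r443 : Reach 30551459 453632 := Reach.step r442 D13.t13 rfl rfl
theorem r444 : Reach 30622523 454656 := Reach.step r443 D13.t14 rfl rfl
theorem r445 : Reach 30694187 455680 := Reach.step r444 D13.t15 rfl rfl
theorem r446 : Reach 30768713 456704 := Reach.step r445 D13.t16 rfl rfl
theorem r447 : Reach 30842297 457728 := Reach.step r446 D13.t17 rfl rfl
theorem r448 : Reach 30915971 458752 := Reach.step r447 D13.t18 rfl rfl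
theorem r449 : Reach 30988241 459776 := Reach.step r448 D13.t19 rfl rfl
theorem r450 : Reach 31062137 460800 := Reach.step r449 D13.t20 rfl rfl
theorem r451 : Reach 31132433 461824 := Reach.step r450 D13.t21 rfl rfl
theorem r452 : Reach 31206083 462848 := Reach.step r451 D13.t22 rfl rfl
theorem r453 : Reach 31279049 463872 := Reach.step r452 D13.t23 rfl rfl
theorem r454 : Reach 31352753 464896 := Reach.step r453 D13.t24 rfl rfl
theorem r455 : Reach 31426883 465920 := Reach.step r454 D13.t25 rfl rfl
theorem r456 : Reach 31501523 466944 := Reach.step r455 D13.t26 rfl rfl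
theorem r457 : Reach 31575881 467968 := Reach.step r456 D13.t27 rfl rfl
theorem r458 : Reach 31647569 468992 := Reach.step r457 D13.t28 rfl rfl
theorem r459 : Reach 31723283 470016 := Reach.step r458 D13.t29 rfl rfl
theorem r460 : Reach 31795193 471040 := Reach.step r459 D13.t30 rfl rfl
theorem r461 : Reach 31866683 472064 := Reach.step r460 D13.t31 rfl rfl
theorem r462 : Reach 31941587 473088 := Reach.step r461 D13.t32 rfl rfl
theorem r463 : Reach 32016329 474112 := Reach.step r462 D14.t0 rfl rfl
theorem r464 : Reach 32087603 475136 := Reach.step r463 D14.t1 rfl rfl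
theorem r465 : Reach 32161193 476160 := Reach.step r464 D14.t2 rfl rfl
theorem r466 : Reach 32237033 477184 := Reach.step r465 D14.t3 rfl rfl
theorem r467 : Reach 32311451 478208 := Reach.step r466 D14.t4 rfl rfl
theorem r468 : Reach 32385251 479232 := Reach.step r467 D14.t5 rfl rfl
theorem r469 : Reach 32457323 480256 := Reach.step r468 D14.t6 rfl rfl
theorem r470 : Reach 32529803 481280 := Reach.step r469 D14.t7 rfl rfl
theorem r471 : Reach 32603633 482304 := Reach.step r470 D14.t8 rfl rfl
theorem r472 : Reach 32673713 483328 := Reach.step r471 D14.t9 rfl rfl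
theorem r473 : Reach 32749337 484352 := Reach.step r472 D14.t10 rfl rfl
theorem r474 : Reach 32825057 485376 := Reach.step r473 D14.t11 rfl rfl
theorem r475 : Reach 32899289 486400 := Reach.step r474 D14.t12 rfl rfl
theorem r476 : Reach 32971739 487424 := Reach.step r475 D14.t13 rfl rfl
theorem r477 : Reach 33045809 488448 := Reach.step r476 D14.t14 rfl rfl
theorem r478 : Reach 33118313 489472 := Reach.step r477 D14.t15 rfl rfl
theorem r479 : Reach 33194243 490496 := Reach.step r478 D14.t16 rfl rfl
theorem r480 : Reach 33268451 491520 := Reach.step r479 D14.t17 rfl rfl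
theorem r481 : Reach 33342641 492544 := Reach.step r480 D14.t18 rfl rfl
theorem r482 : Reach 33419819 493568 := Reach.step r481 D14.t19 rfl rfl
theorem r483 : Reach 33493217 494592 := Reach.step r482 D14.t20 rfl rfl
theorem r484 : Reach 33568091 495616 := Reach.step r483 D14.t21 rfl rfl
theorem r485 : Reach 33642611 496640 := Reach.step r484 D14.t22 rfl rfl
theorem r486 : Reach 33717737 497664 := Reach.step r485 D14.t23 rfl rfl
theorem r487 : Reach 33792401 498688 := Reach.step r486 D14.t24 rfl rfl
theorem r488 : Reach 33865889 499712 := Reach.step r487 D14.t25 rfl rfl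
theorem r489 : Reach 33939827 500736 := Reach.step r488 D14.t26 rfl rfl
theorem r490 : Reach 34012241 501760 := Reach.step r489 D14.t27 rfl rfl
theorem r491 : Reach 34087883 502784 := Reach.step r490 D14.t28 rfl rfl
theorem r492 : Reach 34159043 503808 := Reach.step r491 D14.t29 rfl rfl
theorem r493 : Reach 34233323 504832 := Reach.step r492 D14.t30 rfl rfl
theorem r494 : Reach 34307849 505856 := Reach.step r493 D14.t31 rfl rfl
theorem r495 : Reach 34383449 506880 := Reach.step r494 D14.t32 rfl rfl
theorem r496 : Reach 34460249 507904 := Reach.step r495 D15.t0 rfl rfl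
theorem r497 : Reach 34531577 508928 := Reach.step r496 D15.t1 rfl rfl
theorem r498 : Reach 34606769 509952 := Reach.step r497 D15.t2 rfl rfl
theorem r499 : Reach 34683071 510976 := Reach.step r498 D15.t3 rfl rfl
theorem r500 : Reach 34756259 512000 := Reach.step r499 D15.t4 rfl rfl
theorem r501 : Reach 34828907 513024 := Reach.step r500 D15.t5 rfl rfl
theorem r502 : Reach 34901747 514048 := Reach.step r501 D15.t6 rfl rfl
theorem r503 : Reach 34974113 515072 := Reach.step r502 D15.t7 rfl rfl
theorem r504 : Reach 35051147 516096 := Reach.step r503 D15.t8 rfl rfl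
theorem r505 : Reach 35125481 517120 := Reach.step r504 D15.t9 rfl rfl
theorem r506 : Reach 35197979 518144 := Reach.step r505 D15.t10 rfl rfl
theorem r507 : Reach 35271233 519168 := Reach.step r506 D15.t11 rfl rfl
theorem r508 : Reach 35346671 520192 := Reach.step r507 D15.t12 rfl rfl
theorem r509 : Reach 35418371 521216 := Reach.step r508 D15.t13 rfl rfl
theorem r510 : Reach 35492459 522240 := Reach.step r509 D15.t14 rfl rfl
theorem r511 : Reach 35565329 523264 := Reach.step r510 D15.t15 rfl rfl
theorem r512 : Reach 35638241 524288 := Reach.step r511 D15.t16 rfl rfl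
theorem r513 : Reach 35713163 525312 := Reach.step r512 D15.t17 rfl rfl
theorem r514 : Reach 35786243 526336 := Reach.step r513 D15.t18 rfl rfl
theorem r515 : Reach 35859041 527360 := Reach.step r514 D15.t19 rfl rfl
theorem r516 : Reach 35934299 528384 := Reach.step r515 D15.t20 rfl rfl
theorem r517 : Reach 36006011 529408 := Reach.step r516 D15.t21 rfl rfl
theorem r518 : Reach 36076973 530432 := Reach.step r517 D15.t22 rfl rfl
theorem r519 : Reach 36148691 531456 := Reach.step r518 D15.t23 rfl rfl
theorem r520 : Reach 36225107 532480 := Reach.step r519 D15.t24 rfl rfl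
theorem r521 : Reach 36296657 533504 := Reach.step r520 D15.t25 rfl rfl
theorem r522 : Reach 36370853 534528 := Reach.step r521 D15.t26 rfl rfl
theorem r523 : Reach 36448019 535552 := Reach.step r522 D15.t27 rfl rfl
theorem r524 : Reach 36521123 536576 := Reach.step r523 D15.t28 rfl rfl
theorem r525 : Reach 36593003 537600 := Reach.step r524 D15.t29 rfl rfl
theorem r526 : Reach 36666041 538624 := Reach.step r525 D15.t30 rfl rfl
theorem r527 : Reach 36742379 539648 := Reach.step r526 D15.t31 rfl rfl
theorem r528 : Reach 36816257 540672 := Reach.step r527 D15.t32 rfl rfl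
theorem r529 : Reach 36890681 541696 := Reach.step r528 D16.t0 rfl rfl
theorem r530 : Reach 36965921 542720 := Reach.step r529 D16.t1 rfl rfl
theorem r531 : Reach 37037867 543744 := Reach.step r530 D16.t2 rfl rfl
theorem r532 : Reach 37109363 544768 := Reach.step r531 D16.t3 rfl rfl
theorem r533 : Reach 37184579 545792 := Reach.step r532 D16.t4 rfl rfl
theorem r534 : Reach 37259507 546816 := Reach.step r533 D16.t5 rfl rfl
theorem r535 : Reach 37330313 547840 := Reach.step r534 D16.t6 rfl rfl
theorem r536 : Reach 37402097 548864 := Reach.step r535 D16.t7 rfl rfl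
theorem r537 : Reach 37476401 549888 := Reach.step r536 D16.t8 rfl rfl
theorem r538 : Reach 37549121 550912 := Reach.step r537 D16.t9 rfl rfl
theorem r539 : Reach 37624787 551936 := Reach.step r538 D16.t10 rfl rfl
theorem r540 : Reach 37699547 552960 := Reach.step r539 D16.t11 rfl rfl
theorem r541 : Reach 37770851 553984 := Reach.step r540 D16.t12 rfl rfl
theorem r542 : Reach 37844249 555008 := Reach.step r541 D16.t13 rfl rfl
theorem r543 : Reach 37917017 556032 := Reach.step r542 D16.t14 rfl rfl
theorem r544 : Reach 37989587 557056 := Reach.step r543 D16.t15 rfl rfl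
theorem r545 : Reach 38064137 558080 := Reach.step r544 D16.t16 rfl rfl
theorem r546 : Reach 38136419 559104 := Reach.step r545 D16.t17 rfl rfl
theorem r547 : Reach 38210873 560128 := Reach.step r546 D16.t18 rfl rfl
theorem r548 : Reach 38285393 561152 := Reach.step r547 D16.t19 rfl rfl
theorem r549 : Reach 38356793 562176 := Reach.step r548 D16.t20 rfl rfl
theorem r550 : Reach 38429771 563200 := Reach.step r549 D16.t21 rfl rfl
theorem r551 : Reach 38503667 564224 := Reach.step r550 D16.t22 rfl rfl
theorem r552 : Reach 38575409 565248 := Reach.step r551 D16.t23 rfl rfl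
theorem r553 : Reach 38647619 566272 := Reach.step r552 D16.t24 rfl rfl
theorem r554 : Reach 38719907 567296 := Reach.step r553 D16.t25 rfl rfl
theorem r555 : Reach 38791307 568320 := Reach.step r554 D16.t26 rfl rfl
theorem r556 : Reach 38865779 569344 := Reach.step r555 D16.t27 rfl rfl
theorem r557 : Reach 38938433 570368 := Reach.step r556 D16.t28 rfl rfl
theorem r558 : Reach 39014177 571392 := Reach.step r557 D16.t29 rfl rfl
theorem r559 : Reach 39089777 572416 := Reach.step r558 D16.t30 rfl rfl
theorem r560 : Reach 39163193 573440 := Reach.step r559 D16.t31 rfl rfl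
theorem r561 : Reach 39235979 574464 := Reach.step r560 D16.t32 rfl rfl
theorem r562 : Reach 39308051 575488 := Reach.step r561 D17.t0 rfl rfl
theorem r563 : Reach 39380843 576512 := Reach.step r562 D17.t1 rfl rfl
theorem r564 : Reach 39454001 577536 := Reach.step r563 D17.t2 rfl rfl
theorem r565 : Reach 39526187 578560 := Reach.step r564 D17.t3 rfl rfl
theorem r566 : Reach 39599771 579584 := Reach.step r565 D17.t4 rfl rfl
theorem r567 : Reach 39674417 580608 := Reach.step r566 D17.t5 rfl rfl
theorem r568 : Reach 39750377 581632 := Reach.step r567 D17.t6 rfl rfl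
theorem r569 : Reach 39823907 582656 := Reach.step r568 D17.t7 rfl rfl
theorem r570 : Reach 39896537 583680 := Reach.step r569 D17.t8 rfl rfl
theorem r571 : Reach 39970937 584704 := Reach.step r570 D17.t9 rfl rfl
theorem r572 : Reach 40047083 585728 := Reach.step r571 D17.t10 rfl rfl
theorem r573 : Reach 40118891 586752 := Reach.step r572 D17.t11 rfl rfl
theorem r574 : Reach 40194971 587776 := Reach.step r573 D17.t12 rfl rfl
theorem r575 : Reach 40270817 588800 := Reach.step r574 D17.t13 rfl rfl
theorem r576 : Reach 40342283 589824 := Reach.step r575 D17.t14 rfl rfl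
theorem r577 : Reach 40414937 590848 := Reach.step r576 D17.t15 rfl rfl
theorem r578 : Reach 40488881 591872 := Reach.step r577 D17.t16 rfl rfl
theorem r579 : Reach 40559639 592896 := Reach.step r578 D17.t17 rfl rfl
theorem r580 : Reach 40634339 593920 := Reach.step r579 D17.t18 rfl rfl
theorem r581 : Reach 40709027 594944 := Reach.step r580 D17.t19 rfl rfl
theorem r582 : Reach 40781843 595968 := Reach.step r581 D17.t20 rfl rfl
theorem r583 : Reach 40854953 596992 := Reach.step r582 D17.t21 rfl rfl
theorem r584 : Reach 40930529 598016 := Reach.step r583 D17.t22 rfl rfl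
theorem r585 : Reach 41005229 599040 := Reach.step r584 D17.t23 rfl rfl
theorem r586 : Reach 41077019 600064 := Reach.step r585 D17.t24 rfl rfl
theorem r587 : Reach 41148977 601088 := Reach.step r586 D17.t25 rfl rfl
theorem r588 : Reach 41224121 602112 := Reach.step r587 D17.t26 rfl rfl
theorem r589 : Reach 41298161 603136 := Reach.step r588 D17.t27 rfl rfl
theorem r590 : Reach 41372501 604160 := Reach.step r589 D17.t28 rfl rfl
theorem r591 : Reach 41448419 605184 := Reach.step r590 D17.t29 rfl rfl
theorem r592 : Reach 41519417 606208 := Reach.step r591 D17.t30 rfl rfl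
theorem r593 : Reach 41595041 607232 := Reach.step r592 D17.t31 rfl rfl
theorem r594 : Reach 41670257 608256 := Reach.step r593 D17.t32 rfl rfl
theorem r595 : Reach 41744579 609280 := Reach.step r594 D18.t0 rfl rfl
theorem r596 : Reach 41817857 610304 := Reach.step r595 D18.t1 rfl rfl
theorem r597 : Reach 41892107 611328 := Reach.step r596 D18.t2 rfl rfl
theorem r598 : Reach 41965169 612352 := Reach.step r597 D18.t3 rfl rfl
theorem r599 : Reach 42040667 613376 := Reach.step r598 D18.t4 rfl rfl
theorem r600 : Reach 42115121 614400 := Reach.step r599 D18.t5 rfl rfl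
theorem r601 : Reach 42190307 615424 := Reach.step r600 D18.t6 rfl rfl
theorem r602 : Reach 42262361 616448 := Reach.step r601 D18.t7 rfl rfl
theorem r603 : Reach 42336947 617472 := Reach.step r602 D18.t8 rfl rfl
theorem r604 : Reach 42409859 618496 := Reach.step r603 D18.t9 rfl rfl
theorem r605 : Reach 42485579 619520 := Reach.step r604 D18.t10 rfl rfl
theorem r606 : Reach 42558977 620544 := Reach.step r605 D18.t11 rfl rfl
theorem r607 : Reach 42633113 621568 := Reach.step r606 D18.t12 rfl rfl
theorem r608 : Reach 42707507 622592 := Reach.step r607 D18.t13 rfl rfl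
theorem r609 : Reach 42780209 623616 := Reach.step r608 D18.t14 rfl rfl
theorem r610 : Reach 42852713 624640 := Reach.step r609 D18.t15 rfl rfl
theorem r611 : Reach 42929123 625664 := Reach.step r610 D18.t16 rfl rfl
theorem r612 : Reach 43002683 626688 := Reach.step r611 D18.t17 rfl rfl
theorem r613 : Reach 43077497 627712 := Reach.step r612 D18.t18 rfl rfl
theorem r614 : Reach 43153241 628736 := Reach.step r613 D18.t19 rfl rfl
theorem r615 : Reach 43227179 629760 := Reach.step r614 D18.t20 rfl rfl
theorem r616 : Reach 43302209 630784 := Reach.step r615 D18.t21 rfl rfl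
theorem r617 : Reach 43373921 631808 := Reach.step r616 D18.t22 rfl rfl
theorem r618 : Reach 43444337 632832 := Reach.step r617 D18.t23 rfl rfl
theorem r619 : Reach 43519793 633856 := Reach.step r618 D18.t24 rfl rfl
theorem r620 : Reach 43595171 634880 := Reach.step r619 D18.t25 rfl rfl
theorem r621 : Reach 43671473 635904 := Reach.step r620 D18.t26 rfl rfl
theorem r622 : Reach 43748249 636928 := Reach.step r621 D18.t27 rfl rfl
theorem r623 : Reach 43819691 637952 := Reach.step r622 D18.t28 rfl rfl
theorem r624 : Reach 43892987 638976 := Reach.step r623 D18.t29 rfl rfl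
theorem r625 : Reach 43966469 640000 := Reach.step r624 D18.t30 rfl rfl
theorem r626 : Reach 44042123 641024 := Reach.step r625 D18.t31 rfl rfl
theorem r627 : Reach 44114537 642048 := Reach.step r626 D18.t32 rfl rfl
theorem r628 : Reach 44189753 643072 := Reach.step r627 D19.t0 rfl rfl
theorem r629 : Reach 44263841 644096 := Reach.step r628 D19.t1 rfl rfl
theorem r630 : Reach 44335433 645120 := Reach.step r629 D19.t2 rfl rfl
theorem r631 : Reach 44412803 646144 := Reach.step r630 D19.t3 rfl rfl
theorem r632 : Reach 44487281 647168 := Reach.step r631 D19.t4 rfl rfl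
theorem r633 : Reach 44560667 648192 := Reach.step r632 D19.t5 rfl rfl
theorem r634 : Reach 44632697 649216 := Reach.step r633 D19.t6 rfl rfl
theorem r635 : Reach 44704427 650240 := Reach.step r634 D19.t7 rfl rfl
theorem r636 : Reach 44777261 651264 := Reach.step r635 D19.t8 rfl rfl
theorem r637 : Reach 44850821 652288 := Reach.step r636 D19.t9 rfl rfl
theorem r638 : Reach 44922299 653312 := Reach.step r637 D19.t10 rfl rfl
theorem r639 : Reach 44999267 654336 := Reach.step r638 D19.t11 rfl rfl
theorem r640 : Reach 45069113 655360 := Reach.step r639 D19.t12 rfl rfl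
theorem r641 : Reach 45145169 656384 := Reach.step r640 D19.t13 rfl rfl
theorem r642 : Reach 45217787 657408 := Reach.step r641 D19.t14 rfl rfl
theorem r643 : Reach 45292217 658432 := Reach.step r642 D19.t15 rfl rfl
theorem r644 : Reach 45367481 659456 := Reach.step r643 D19.t16 rfl rfl
theorem r645 : Reach 45440441 660480 := Reach.step r644 D19.t17 rfl rfl
theorem r646 : Reach 45515747 661504 := Reach.step r645 D19.t18 rfl rfl
theorem r647 : Reach 45589931 662528 := Reach.step r646 D19.t19 rfl rfl
theorem r648 : Reach 45661019 663552 := Reach.step r647 D19.t20 rfl rfl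
theorem r649 : Reach 45737849 664576 := Reach.step r648 D19.t21 rfl rfl
theorem r650 : Reach 45808241 665600 := Reach.step r649 D19.t22 rfl rfl
theorem r651 : Reach 45881531 666624 := Reach.step r650 D19.t23 rfl rfl
theorem r652 : Reach 45956891 667648 := Reach.step r651 D19.t24 rfl rfl
theorem r653 : Reach 46032011 668672 := Reach.step r652 D19.t25 rfl rfl
theorem r654 : Reach 46106681 669696 := Reach.step r653 D19.t26 rfl rfl
theorem r655 : Reach 46182833 670720 := Reach.step r654 D19.t27 rfl rfl
theorem r656 : Reach 46257713 671744 := Reach.step r655 D19.t28 rfl rfl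
theorem r657 : Reach 46330547 672768 := Reach.step r656 D19.t29 rfl rfl
theorem r658 : Reach 46406819 673792 := Reach.step r657 D19.t30 rfl rfl
theorem r659 : Reach 46481387 674816 := Reach.step r658 D19.t31 rfl rfl
theorem r660 : Reach 46553057 675840 := Reach.step r659 D19.t32 rfl rfl
theorem r661 : Reach 46624481 676864 := Reach.step r660 D20.t0 rfl rfl
theorem r662 : Reach 46698569 677888 := Reach.step r661 D20.t1 rfl rfl
theorem r663 : Reach 46774913 678912 := Reach.step r662 D20.t2 rfl rfl
theorem r664 : Reach 46849379 679936 := Reach.step r663 D20.t3 rfl rfl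
theorem r665 : Reach 46922537 680960 := Reach.step r664 D20.t4 rfl rfl
theorem r666 : Reach 46995713 681984 := Reach.step r665 D20.t5 rfl rfl
theorem r667 : Reach 47072381 683008 := Reach.step r666 D20.t6 rfl rfl
theorem r668 : Reach 47146259 684032 := Reach.step r667 D20.t7 rfl rfl
theorem r669 : Reach 47221409 685056 := Reach.step r668 D20.t8 rfl rfl
theorem r670 : Reach 47294297 686080 := Reach.step r669 D20.t9 rfl rfl
theorem r671 : Reach 47368043 687104 := Reach.step r670 D20.t10 rfl rfl
theorem r672 : Reach 47442737 688128 := Reach.step r671 D20.t11 rfl rfl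
theorem r673 : Reach 47517857 689152 := Reach.step r672 D20.t12 rfl rfl
theorem r674 : Reach 47593697 690176 := Reach.step r673 D20.t13 rfl rfl
theorem r675 : Reach 47668769 691200 := Reach.step r674 D20.t14 rfl rfl
theorem r676 : Reach 47740529 692224 := Reach.step r675 D20.t15 rfl rfl
theorem r677 : Reach 47813819 693248 := Reach.step r676 D20.t16 rfl rfl
theorem r678 : Reach 47883233 694272 := Reach.step r677 D20.t17 rfl rfl
theorem r679 : Reach 47961227 695296 := Reach.step r678 D20.t18 rfl rfl
theorem r680 : Reach 48041297 696320 := Reach.step r679 D20.t19 rfl rfl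
theorem r681 : Reach 48114083 697344 := Reach.step r680 D20.t20 rfl rfl
theorem r682 : Reach 48184901 698368 := Reach.step r681 D20.t21 rfl rfl
theorem r683 : Reach 48257723 699392 := Reach.step r682 D20.t22 rfl rfl
theorem r684 : Reach 48334739 700416 := Reach.step r683 D20.t23 rfl rfl
theorem r685 : Reach 48407363 701440 := Reach.step r684 D20.t24 rfl rfl
theorem r686 : Reach 48484889 702464 := Reach.step r685 D20.t25 rfl rfl
theorem r687 : Reach 48557099 703488 := Reach.step r686 D20.t26 rfl rfl
theorem r688 : Reach 48630209 704512 := Reach.step r687 D20.t27 rfl rfl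
theorem r689 : Reach 48703043 705536 := Reach.step r688 D20.t28 rfl rfl
theorem r690 : Reach 48778649 706560 := Reach.step r689 D20.t29 rfl rfl
theorem r691 : Reach 48850481 707584 := Reach.step r690 D20.t30 rfl rfl
theorem r692 : Reach 48927257 708608 := Reach.step r691 D20.t31 rfl rfl
theorem r693 : Reach 49001489 709632 := Reach.step r692 D20.t32 rfl rfl
theorem r694 : Reach 49076537 710656 := Reach.step r693 D21.t0 rfl rfl
theorem r695 : Reach 49151393 711680 := Reach.step r694 D21.t1 rfl rfl
theorem r696 : Reach 49223507 712704 := Reach.step r695 D21.t2 rfl rfl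
theorem r697 : Reach 49296281 713728 := Reach.step r696 D21.t3 rfl rfl
theorem r698 : Reach 49372361 714752 := Reach.step r697 D21.t4 rfl rfl
theorem r699 : Reach 49445267 715776 := Reach.step r698 D21.t5 rfl rfl
theorem r700 : Reach 49519601 716800 := Reach.step r699 D21.t6 rfl rfl
theorem r701 : Reach 49591889 717824 := Reach.step r700 D21.t7 rfl rfl
theorem r702 : Reach 49666313 718848 := Reach.step r701 D21.t8 rfl rfl
theorem r703 : Reach 49742843 719872 := Reach.step r702 D21.t9 rfl rfl
theorem r704 : Reach 49816673 720896 := Reach.step r703 D21.t10 rfl rfl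
theorem r705 : Reach 49891067 721920 := Reach.step r704 D21.t11 rfl rfl
theorem r706 : Reach 49964633 722944 := Reach.step r705 D21.t12 rfl rfl
theorem r707 : Reach 50039747 723968 := Reach.step r706 D21.t13 rfl rfl
theorem r708 : Reach 50113913 724992 := Reach.step r707 D21.t14 rfl rfl
theorem r709 : Reach 50192027 726016 := Reach.step r708 D21.t15 rfl rfl
theorem r710 : Reach 50265401 727040 := Reach.step r709 D21.t16 rfl rfl
theorem r711 : Reach 50337779 728064 := Reach.step r710 D21.t17 rfl rfl
theorem r712 : Reach 50412521 729088 := Reach.step r711 D21.t18 rfl rfl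
theorem r713 : Reach 50488241 730112 := Reach.step r712 D21.t19 rfl rfl
theorem r714 : Reach 50561867 731136 := Reach.step r713 D21.t20 rfl rfl
theorem r715 : Reach 50636603 732160 := Reach.step r714 D21.t21 rfl rfl
theorem r716 : Reach 50711681 733184 := Reach.step r715 D21.t22 rfl rfl
theorem r717 : Reach 50786843 734208 := Reach.step r716 D21.t23 rfl rfl
theorem r718 : Reach 50861147 735232 := Reach.step r717 D21.t24 rfl rfl
theorem r719 : Reach 50934203 736256 := Reach.step r718 D21.t25 rfl rfl
theorem r720 : Reach 51009857 737280 := Reach.step r719 D21.t26 rfl rfl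
theorem r721 : Reach 51087467 738304 := Reach.step r720 D21.t27 rfl rfl
theorem r722 : Reach 51162569 739328 := Reach.step r721 D21.t28 rfl rfl
theorem r723 : Reach 51238739 740352 := Reach.step r722 D21.t29 rfl rfl
theorem r724 : Reach 51313571 741376 := Reach.step r723 D21.t30 rfl rfl
theorem r725 : Reach 51387137 742400 := Reach.step r724 D21.t31 rfl rfl
theorem r726 : Reach 51459203 743424 := Reach.step r725 D21.t32 rfl rfl

end Pool.Agent.MP41caf5
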