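import Mathlib

/-!
Definitions for MP_41caf5_nt (primes with a prescribed largest negative primitive root),
exactly as in the problem file.
-/

namespace Pool.Agent.MP41caf5

/-- An integer `a` is a perfect power if `a = x ^ m` for some integers `x` and `m > 1`. -/
def IsPerfectPower (a : ℤ) : Prop :=
  ∃ (x : ℤ) (m : ℕ), 1 < m ∧ a = x ^ m

/-- `g` is a primitive root modulo `p`: `p ∤ g`, and the residue class of `g` generates
the group `(ℤ/pℤ)ˣ`. -/
def IsPrimRootMod (g : ℤ) (p : ℕ) : Prop :=
  ¬ (p : ℤ) ∣ g ∧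
    ∃ u : (ZMod p)ˣ, (u : ZMod p) = (g : ZMod p) ∧ ∀ v : (ZMod p)ˣ, v ∈ Subgroup.zpowers u

/-- `a < 0` is the largest negative primitive root modulo `p`. -/
def IsLargestNegPrimRoot (a : ℤ) (p : ℕ) : Prop :=
  a < 0 ∧ IsPrimRootMod a p ∧ ∀ b : ℤ, a < b → b < 0 → ¬ IsPrimRootMod b p

/-- The set of primes `p` for which `a` is the largest negative primitive root modulo `p`. -/
def primesFor (a : ℤ) : Set ℕ :=
  {p | p.Prime ∧ IsLargestNegPrimRoot a p}

/-- `IsTerm a n q` says that `q = p_n(a)`: `q` belongs to the list of primes for which `a` is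
the largest negative primitive root, and exactly `n` members of that list are `≤ q`. -/
def IsTerm (a : ℤ) (n q : ℕ) : Prop :=
  q ∈ primesFor a ∧ {p | p ∈ primesFor a ∧ p ≤ q}.ncard = n

end Pool.Agent.MP41caf5
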