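import Pool.Agent.Lib.MP_41caf5_nt.Sound

/-!
No member of `primesFor (-3)` lies strictly between `51459203` and `51460433`.
-/

namespace Pool.Agent.MP41caf5

/-- For `j < 205`: a proper divisor of `51459203 + 6 * j`, or `0` when that number is a prime. -/
def gapFactors : List ℕ := [0, 463, 5, 11, 109, 7, 13, 5, 421, 23, 163, 59, 5, 353, 11, 0, 5749, 5, 29, 7, 17, 139, 5, 37, 43, 11, 7, 5, 0, 271, 773, 6779, 5, 7, 47, 0, 11, 5, 269, 743, 7, 53, 5, 691, 19, 13, 2011, 5, 599, 383, 4157, 0, 5, 103, 7, 23, 61, 5, 11, 0, 37, 7, 5, 19, 2927, 71, 673, 5, 7, 11, 59, 13, 5, 6899, 307, 7, 29, 5, 23, 4799, 11, 47, 5, 349, 13, 1181, 1429, 5, 17, 7, 151, 11, 5, 97, 53, 0, 7, 5, 569, 41, 101, 19, 5, 7, 863, 17, 2789, 5, 2591, 3739, 7, 0, 5, 11, 0, 2161, 797, 5, 6143, 83, 19, 181, 5, 13, 7, 67, 3613, 5, 47, 59, 4133, 7, 5, 0, 29, 11, 13, 5, 7, 17, 41, 1249, 5, 173, 89, 7, 11, 5, 881, 13, 757, 73, 5, 43, 1511, 0, 17, 5, 19, 7, 139, 193, 5, 29, 4139, 229, 7, 5, 11, 31, 23, 37, 5, 7, 0, 13, 107, 5, 61, 11,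 7, 41, 5, 0, 1481, 113, 6733, 5, 13, 131, 11, 0, 5, 23, 7, 281, 19, 5, 0, 0, 31, 7, 5, 263, 4639]

/-- The indices `0 < j < 205` for which `51459203 + 6 * j` is a prime. -/
def gapPrimes : List ℕ := [15, 28, 35, 51, 59, 95, 111, 114, 133, 155, 174, 183, 191, 198, 199]

theorem gap_aux : ∀ j < 205, j = 0 ∨ j ∈ gapPrimes ∨
    (1 < gapFactors.getD j 0 ∧ gapFactors.getD j 0 < 10000 ∧
      (51459203 + 6 * j) % gapFactors.getD j 0 = 0) := by
  decide +kernel

/-- A list of all odd prime factors of `p - 1`, with `2 ^ ((p - 1) / q) ≠ 1` modulo `p`. -/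
def Full2 (p : ℕ) (L : List ℕ) (r : ℕ) : Prop :=
  (∀ d ∈ L, Nat.testBit mask d = true ∧ pw 2 p ((p - 1) / d) ≠ 1) ∧
    (r = 1 ∨ (1 < r ∧ r < 51466276 ∧ Nat.gcd r M = 1 ∧ pw 2 p ((p - 1) / r) ≠ 1)) ∧
    (2 * L.prod * r) ^ 26 % (p - 1) = 0

instance (p : ℕ) (L : List ℕ) (r : ℕ) : Decidable (Full2 p L r) := by
  unfold Full2; infer_instance

theorem not_mem_full {p : ℕ} {L : List ℕ} {r : ℕ} (h : Full2 p L r) (hg : Nat.gcd p M = 1)
    (h6 : p % 6 = 5) (hbig : 16384 < p) (hup : p < 51466276) (h8 : p % 8 = 5 ∨ p % 8 = 7) :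
    p ∉ primesFor (-3) := by
  obtain ⟨hL, hr, hd⟩ := h
  have hp : p.Prime := prime_of_gcd (by omega) (by omega) hg
  refine not_mem_of_two hp h6 hbig h8 ?_
  intro q hq hq5 hqd
  have h1 : q ∣ (2 * L.prod * r) ^ 26 := hqd.trans (Nat.dvd_of_mod_eq_zero hd)
  have h2 : q ∣ 2 * L.prod * r := hq.dvd_of_dvd_pow h1
  rcases (Nat.Prime.dvd_mul hq).1 h2 with h3 | h3
  · rcases (Nat.Prime.dvd_mul hq).1 h3 with h4 | h4
    · have := Nat.le_of_dvd (by norm_num) h4
      omega
    · obtain ⟨d, hdL, hqd'⟩ := (hq.prime.dvd_prod_iff).1 h4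
      obtain ⟨hm, hpw⟩ := hL d hdL
      rw [pw_eq] at hpw
      rw [(Nat.prime_dvd_prime_iff_eq hq (mask_prime hm).1).1 hqd']
      exact hpw
  · rcases hr with rfl | ⟨hr1, hr2, hr3, hr4⟩
    · have := Nat.le_of_dvd (by norm_num) h3
      omega
    · rw [pw_eq] at hr4
      rw [(Nat.prime_dvd_prime_iff_eq hq (prime_of_gcd hr1 (by omega) hr3)).1 h3]
      exact hr4

theorem gap15 : 51459293 ∉ primesFor (-3) :=
  not_mem_full (L := []) (r := 12864823) (by decide +kernel) (by decide +kernel)
    (by norm_num) (by norm_num) (by norm_num) (by norm_num)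

theorem gap28 : 51459371 ∉ primesFor (-3) :=
  not_mem_of_pow (k := 10291874) (by norm_num) (by norm_num) (by norm_num)
    (by rw [← pw_eq]; decide +kernel)

theorem gap35 : 51459413 ∉ primesFor (-3) :=
  not_mem_full (L := []) (r := 12864853) (by decide +kernel) (by decide +kernel)
    (by norm_num) (by norm_num) (by norm_num) (by norm_num)

theorem gap51 : 51459509 ∉ primesFor (-3) :=
  not_mem_full (L := []) (r := 12864877) (by decide +kernel) (by decide +kernel)
    (by norm_num) (by norm_num) (by norm_num) (by norm_num)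

theorem gap59 : 51459557 ∉ primesFor (-3) :=
  not_mem_full (L := [23]) (r := 559343) (by decide +kernel) (by decide +kernel)
    (by norm_num) (by norm_num) (by norm_num) (by norm_num)

theorem gap95 : 51459773 ∉ primesFor (-3) :=
  not_mem_full (L := [7, 13, 109, 1297]) (r := 1) (by decide +kernel) (by decide +kernel)
    (by norm_num) (by norm_num) (by norm_num) (by norm_num)

theorem gap111 : 51459869 ∉ primesFor (-3) :=
  not_mem_full (L := []) (r := 12864967) (by decide +kernel) (by decide +kernel)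
    (by norm_num) (by norm_num) (by norm_num) (by norm_num)

theorem gap114 : 51459887 ∉ primesFor (-3) :=
  not_mem_full (L := [67]) (r := 384029) (by decide +kernel) (by decide +kernel)
    (by norm_num) (by norm_num) (by norm_num) (by norm_num)

theorem gap133 : 51460001 ∉ primesFor (-3) :=
  not_mem_of_pow (k := 10292000) (by norm_num) (by norm_num) (by norm_num)
    (by rw [← pw_eq]; decide +kernel)

theorem gap155 : 51460133 ∉ primesFor (-3) :=
  not_mem_full (L := [19]) (r := 677107) (by decide +kernel) (by decide +kernel)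
    (by norm_num) (by norm_num) (by norm_num) (by norm_num)

theorem gap174 : 51460247 ∉ primesFor (-3) :=
  not_mem_full (L := [19, 23, 97, 607]) (r := 1) (by decide +kernel) (by decide +kernel)
    (by norm_num) (by norm_num) (by norm_num) (by norm_num)

theorem gap183 : 51460301 ∉ primesFor (-3) :=
  not_mem_full (L := [5, 47]) (r := 10949) (by decide +kernel) (by decide +kernel)
    (by norm_num) (by norm_num) (by norm_num) (by norm_num)

theorem gap191 : 51460349 ∉ primesFor (-3) :=
  not_mem_full (L := []) (r := 12865087) (by decide +kernel) (by decide +kernel)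
    (by norm_num) (by norm_num) (by norm_num) (by norm_num)

theorem gap198 : 51460391 ∉ primesFor (-3) :=
  not_mem_full (L := [5, 59]) (r := 87221) (by decide +kernel) (by decide +kernel)
    (by norm_num) (by norm_num) (by norm_num) (by norm_num)

theorem gap199 : 51460397 ∉ primesFor (-3) :=
  not_mem_full (L := [13]) (r := 989623) (by decide +kernel) (by decide +kernel)
    (by norm_num) (by norm_num) (by norm_num) (by norm_num)

theorem gap_all {p : ℕ} (h1 : 51459203 < p) (h2 : p < 51460433) : p ∉ primesFor (-3) := by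
  by_cases h6 : p % 6 = 5
  · have hj : p = 51459203 + 6 * ((p - 51459203) / 6) := by omega
    have hlt : (p - 51459203) / 6 < 205 := by omega
    have hpos : 0 < (p - 51459203) / 6 := by omega
    rcases gap_aux _ hlt with h | h | ⟨h3, h4, h5⟩
    · omega
    · generalize hjj : (p - 51459203) / 6 = j at *
      simp only [gapPrimes, List.mem_cons, List.not_mem_nil, or_false] at h
      rcases h with rfl | rfl | rfl | rfl | rfl | rfl | rfl | rfl | rfl | rfl | rfl | rfl | rfl | rfl | rfl
      · rw [hj]; exact gap15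
      · rw [hj]; exact gap28
      · rw [hj]; exact gap35
      · rw [hj]; exact gap51
      · rw [hj]; exact gap59
      · rw [hj]; exact gap95
      · rw [hj]; exact gap111
      · rw [hj]; exact gap114
      · rw [hj]; exact gap133
      · rw [hj]; exact gap155
      · rw [hj]; exact gap174
      · rw [hj]; exact gap183
      · rw [hj]; exact gap191
      · rw [hj]; exact gap198
      · rw [hj]; exact gap199
    · rw [← hj] at h5
      rintro ⟨hp, -⟩
      have hd := Nat.dvd_of_mod_eq_zero h5
      rcases (Nat.dvd_prime hp).1 hd with h | h <;> omega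
  · by_cases h3 : p % 3 = 1
    · exact not_mem_of_mod_three (by omega) h3
    · rintro ⟨hp, -⟩
      rcases hp.eq_two_or_odd with h | h
      · omega
      · have h30 : 3 ∣ p := by omega
        rcases (Nat.dvd_prime hp).1 h30 with h | h <;> omega

end Pool.Agent.MP41caf5
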