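import Pool.Agent.Lib.MP_41caf5_nt.Chain
import Pool.Agent.Lib.MP_41caf5_nt.Gap

/-!
Assembling the disproof of Q2: the two consecutive members `51459203` and `51460433` of
`primesFor (-3)`, and the inequality.
-/

namespace Pool.Agent.MP41caf5

theorem memP : 51459203 ∈ primesFor (-3) :=
  mem_of_finG (inv_init _) (by norm_num) (by norm_num) (by norm_num) (by decide +kernel)

theorem memQ : 51460433 ∈ primesFor (-3) :=
  mem_of_finG (inv_init _) (by norm_num) (by norm_num) (by norm_num) (by decide +kernel)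

theorem ncard_eq_cnt (q : ℕ) : {p | p ∈ primesFor (-3) ∧ p ≤ q}.ncard = cnt (q + 1) := by
  have h : {p | p ∈ primesFor (-3) ∧ p ≤ q} =
      (((Finset.range (q + 1)).filter InS : Finset ℕ) : Set ℕ) := by
    ext p
    simp only [Set.mem_ofPred_eq, Finset.coe_filter, Finset.mem_range, InS]
    constructor
    · rintro ⟨h1, h2⟩
      exact ⟨by omega, h1⟩
    · rintro ⟨h1, h2⟩
      exact ⟨h2, by omega⟩
  rw [h, Set.ncard_coe_finset, cnt, Nat.count_eq_card_filter_range]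

theorem cnt_eq_of_gap {a b : ℕ} (hab : a ≤ b) (h : ∀ p, a ≤ p → p < b → p ∉ primesFor (-3)) :
    cnt b = cnt a := by
  obtain ⟨k, rfl⟩ := Nat.exists_eq_add_of_le hab
  induction k with
  | zero => rfl
  | succ k ih =>
    have h1 : cnt (a + (k + 1)) = cnt (a + k) := by
      have h2 : a + (k + 1) = (a + k) + 1 := by omega
      rw [h2]
      unfold cnt
      rw [Nat.count_succ, if_neg (show ¬ InS (a + k) from h _ (by omega) (by omega)), add_zero]
    rw [h1]
    exact ih (by omega) (fun p hp1 hp2 => h p hp1 (by omega))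

theorem cnt_succ_eq {p : ℕ} (hp : p ∈ primesFor (-3)) : cnt (p + 1) = cnt p + 1 := by
  unfold cnt
  rw [Nat.count_succ, if_pos (show InS p from hp)]

theorem term_first {P : ℕ} (hP : P ∈ primesFor (-3)) : IsTerm (-3) (cnt (P + 1)) P :=
  ⟨hP, ncard_eq_cnt _⟩

theorem term_next {P Q : ℕ} (hQ : Q ∈ primesFor (-3)) (hPQ : P < Q)
    (hgap : ∀ p, P < p → p < Q → p ∉ primesFor (-3)) : IsTerm (-3) (cnt (P + 1) + 1) Q := by
  refine ⟨hQ, ?_⟩
  rw [ncard_eq_cnt, cnt_succ_eq hQ, cnt_eq_of_gap hPQ (fun p h1 h2 => hgap p h1 h2)]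

theorem cnt_ge {P m : ℕ} (hP : P ∈ primesFor (-3)) (hr : Reach P m) : m + 1 ≤ cnt (P + 1) := by
  rw [cnt_succ_eq hP]
  have := hr.2.2
  omega

/-- `a ^ (c + 1) ≤ b ^ c`, as a Boolean check. -/
def PowLe (a b c : ℕ) : Prop := Nat.ble (Nat.pow a (Nat.succ c)) (Nat.pow b c) = true

instance (a b c : ℕ) : Decidable (PowLe a b c) := instDecidableEqBool _ _

theorem pow_base : PowLe 51459203 51460433 742875 := by
  decide +kernel

theorem pow_step {a b c n : ℕ} (h : PowLe a b c)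
    (hab : a ≤ b) (hn : c ≤ n) : a ^ (n + 1) ≤ b ^ n := by
  obtain ⟨k, rfl⟩ := Nat.exists_eq_add_of_le hn
  have h1 : a ^ (c + 1) ≤ b ^ c := Nat.le_of_ble_eq_true h
  have h2 : a ^ k ≤ b ^ k := Nat.pow_le_pow_left hab k
  have e1 : a ^ (c + k + 1) = a ^ (c + 1) * a ^ k := by
    rw [← pow_add]; congr 1; omega
  have e2 : b ^ (c + k) = b ^ c * b ^ k := by
    rw [← pow_add]
  rw [e1, e2]
  exact Nat.mul_le_mul h1 h2

theorem real_ineq {a b n : ℕ} (ha : 0 < a) (hn : 0 < n) (h : a ^ (n + 1) ≤ b ^ n) :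
    (a : ℝ) ^ (1 + 1 / (n : ℝ)) ≤ b := by
  have hn0 : (n : ℝ) ≠ 0 := by
    have : n ≠ 0 := by omega
    exact_mod_cast this
  have ha0 : (0 : ℝ) ≤ a := by positivity
  have hb0 : (0 : ℝ) ≤ b := by positivity
  have h1 : ((a : ℝ) ^ (n + 1)) ≤ (b : ℝ) ^ n := by
    exact_mod_cast h
  have h2 : (a : ℝ) ^ (1 + 1 / (n : ℝ)) = ((a : ℝ) ^ (n + 1)) ^ (1 / (n : ℝ)) := by
    rw [← Real.rpow_natCast, ← Real.rpow_mul ha0]
    congr 1
    push_cast
    field_simp
  have h3 : (b : ℝ) = ((b : ℝ) ^ n) ^ (1 / (n : ℝ)) := by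
    rw [← Real.rpow_natCast, ← Real.rpow_mul hb0, mul_one_div_cancel hn0, Real.rpow_one]
  rw [h2]
  conv_rhs => rw [h3]
  exact Real.rpow_le_rpow (by positivity) h1 (by positivity)

theorem neg_three_not_power : ¬ IsPerfectPower (-3) := by
  rintro ⟨x, m, hm, hx⟩
  have h1 : x ∣ 3 := by
    have : x ∣ x ^ m := dvd_pow_self x (by omega)
    rw [← hx] at this
    exact (dvd_neg (a := x) (b := 3)).1 this
  have h2 : x * x ∣ 3 := by
    have : x ^ 2 ∣ x ^ m := pow_dvd_pow x (by omega)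
    rw [← hx, sq] at this
    exact (dvd_neg (a := x * x) (b := 3)).1 this
  have h3 : x.natAbs * x.natAbs ∣ 3 := by
    have := Int.natAbs_dvd_natAbs.2 h2
    rwa [Int.natAbs_mul] at this
  have h4 : x.natAbs ≤ 1 := by
    by_contra hc
    have h5 : 2 ≤ x.natAbs := by omega
    have h6 := Nat.le_of_dvd (by norm_num) h3
    nlinarith
  have h7 : x = 0 ∨ x = 1 ∨ x = -1 := by omega
  rcases h7 with rfl | rfl | rfl
  · rw [zero_pow (by omega)] at hx
    norm_num at hx
  · rw [one_pow] at hx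
    norm_num at hx
  · rcases neg_one_pow_eq_or ℤ m with h | h <;> rw [h] at hx <;> norm_num at hx

end Pool.Agent.MP41caf5
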