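import Pool.Agent.Lib.MP_41caf5_nt.Basic

/-!
If `-d ^ 4` is a primitive root modulo a prime, so is `-d ^ 2`.
-/

namespace Pool.Agent.MP41caf5

theorem orderOf_neg_sq {p m : ℕ} [Fact p.Prime] (hm : 0 < m) (hp : p - 1 = 2 * m) (x : ZMod p)
    (h : orderOf (-x ^ 4) = 2 * m) : orderOf (-x ^ 2) = 2 * m := by
  have h1 : ∀ k, (-x ^ 4) ^ k = 1 → 2 * m ∣ k := fun k hk => h ▸ orderOf_dvd_of_pow_eq_one hk
  have hx : x ≠ 0 := by
    rintro rfl
    have h2 := pow_orderOf_eq_one (-(0 : ZMod p) ^ 4)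
    rw [h] at h2
    simp [hm.ne'] at h2
  have hx1 : x ^ (2 * m) = 1 := by
    rw [← hp]
    exact ZMod.pow_card_sub_one_eq_one hx
  -- `(-x ^ 4) ^ m = (-1) ^ m`, so `m` is odd
  have hg : (-x ^ 4) ^ m = (-1) ^ m := by
    rw [neg_pow, ← pow_mul, show 4 * m = 2 * m * 2 by ring, pow_mul, hx1, one_pow, mul_one]
  have hodd : Odd m := by
    rcases Nat.even_or_odd m with he | ho
    · rw [he.neg_one_pow] at hg
      have := Nat.le_of_dvd hm (h1 m hg)
      omega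
    · exact ho
  have hh : (-x ^ 2) ^ m = -1 := by
    rw [neg_pow, ← pow_mul, hx1, mul_one, hodd.neg_one_pow]
  have hne : (-1 : ZMod p) ≠ 1 := by
    rw [hodd.neg_one_pow] at hg
    intro hc
    have := Nat.le_of_dvd hm (h1 m (hg.trans hc))
    omega
  have hd : orderOf (-x ^ 2) ∣ 2 * m := by
    apply orderOf_dvd_of_pow_eq_one
    rw [mul_comm, pow_mul, hh]
    ring
  refine Nat.dvd_antisymm hd (h1 _ ?_)
  have hk := pow_orderOf_eq_one (-x ^ 2)
  set k := orderOf (-x ^ 2) with hkdef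
  have he : Even k := by
    by_contra ho
    rw [Nat.not_even_iff_odd] at ho
    have h3 : k ∣ m := Nat.Coprime.dvd_of_dvd_mul_left
      (Nat.coprime_two_right.2 ho) hd
    exact hne (hh.symm.trans (orderOf_dvd_iff_pow_eq_one.1 h3))
  have h4 : (-x ^ 4) = -((-x ^ 2) ^ 2) := by ring
  rw [h4, he.neg_pow, ← pow_mul, mul_comm, pow_mul, hk, one_pow]

theorem zmod_two_eq_one : ∀ y : ZMod 2, y ≠ 0 → (1 : ZMod 2) = y := by
  decide

theorem zmod_two_units : ∀ v : (ZMod 2)ˣ, v = 1 := by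
  decide

theorem primRoot_neg_sq {d p : ℕ} (hp : p.Prime) (h : IsPrimRootMod (-(d : ℤ) ^ 4) p) :
    IsPrimRootMod (-(d : ℤ) ^ 2) p := by
  have : Fact p.Prime := ⟨hp⟩
  rcases hp.eq_two_or_odd' with rfl | hodd
  · have hd : ¬ ((2 : ℕ) : ℤ) ∣ -(d : ℤ) ^ 2 := by
      intro hd
      apply h.1
      rw [dvd_neg] at hd ⊢
      exact hd.trans ⟨(d : ℤ) ^ 2, by ring⟩
    refine ⟨hd, 1, ?_, fun v => ?_⟩
    · have h1 : ((-(d : ℤ) ^ 2 : ℤ) : ZMod 2) ≠ 0 :=
        fun h0 => hd ((ZMod.intCast_zmod_eq_zero_iff_dvd _ 2).1 h0)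
      exact zmod_two_eq_one _ h1
    · rw [zmod_two_units v]
      exact Subgroup.one_mem _
  · have hp2 : 2 < p := lt_of_le_of_ne hp.two_le (fun h2 => by
      rw [← h2] at hodd
      exact absurd hodd (by decide))
    obtain ⟨m, hm⟩ := hodd
    rw [primRoot_iff hp2] at h ⊢
    have h1 := orderOf_neg_sq (p := p) (m := m) (by omega) (by omega) (d : ZMod p) (by
      push_cast at h
      rw [h]
      omega)
    push_cast
    rw [h1]
    omega

theorem primesFor_neg_fourth {d : ℕ} (hd : 2 ≤ d) : primesFor (-(d : ℤ) ^ 4) = ∅ := by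
  rw [Set.eq_empty_iff_forall_notMem]
  rintro p ⟨hp, -, h, hb⟩
  have h1 : (0 : ℤ) < (d : ℤ) ^ 2 := by positivity
  have h2 : (d : ℤ) ^ 2 < (d : ℤ) ^ 4 := by
    have : (1 : ℤ) < d := by exact_mod_cast hd
    exact pow_lt_pow_right₀ this (by norm_num)
  exact hb _ (by linarith) (by linarith) (primRoot_neg_sq hp h)

theorem perfectPower_neg_fourth {d : ℕ} (hd : 2 ≤ d) :
    IsPerfectPower (-(d : ℤ) ^ 4) ↔ ∃ e m : ℕ, 1 < m ∧ Odd m ∧ d = e ^ m := by
  constructor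
  · rintro ⟨x, m, hm, hx⟩
    have hneg : x ^ m < 0 := by
      rw [← hx]
      have : (0 : ℤ) < (d : ℤ) ^ 4 := by positivity
      linarith
    have hodd : Odd m := by
      by_contra he
      rw [Nat.not_odd_iff_even] at he
      exact absurd (he.pow_nonneg x) (not_le.2 hneg)
    have h1 : d ^ 4 = x.natAbs ^ m := by
      have := congrArg Int.natAbs hx
      rwa [Int.natAbs_neg, Int.natAbs_pow, Int.natAbs_pow, Int.natAbs_natCast] at this
    have hco : Nat.Coprime 4 m := by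
      have : Nat.Coprime (2 ^ 2) m := Nat.Coprime.pow_left 2 (Nat.coprime_two_left.2 hodd)
      simpa using this
    obtain ⟨c, hc, -⟩ := Nat.exists_eq_pow_of_exponent_coprime_of_pow_eq_pow hco h1
    exact ⟨c, m, hm, hodd, hc⟩
  · rintro ⟨e, m, hm, hodd, rfl⟩
    refine ⟨-(e : ℤ) ^ 4, m, hm, ?_⟩
    rw [hodd.neg_pow]
    push_cast
    ring

end Pool.Agent.MP41caf5
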