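import Mathlib
import Pool.Agent.Lib.MP_41caf5_nt.Core

/-!
The two tables of the checker: `M` is divisible by all numbers below `7174`, and the bits of
`mask` mark primes.
-/

namespace Pool.Agent.MP41caf5

/-- `M` is divisible by `i + 1`, as a Boolean. -/
def chkM (i : ℕ) : Bool := Nat.beq (Nat.mod M (Nat.succ i)) 0

theorem dvd_M_aux : ∀ a < 85, ∀ b < 85, 85 * a + b < 7173 → chkM (85 * a + b) = true := by
  decide +kernel

theorem dvd_M {i : ℕ} (h0 : 0 < i) (hi : i < 7174) : i ∣ M := by
  have h := dvd_M_aux ((i - 1) / 85) (by omega) ((i - 1) % 85) (Nat.mod_lt _ (by norm_num))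
  have e : 85 * ((i - 1) / 85) + (i - 1) % 85 = i - 1 := by omega
  rw [e] at h
  have h1 := Nat.eq_of_beq_eq_true (h (by omega))
  have e2 : Nat.succ (i - 1) = i := by omega
  rw [e2] at h1
  exact Nat.dvd_of_mod_eq_zero h1

/-- The least common multiple of 1, ..., 90. -/
def K90 : ℕ := 718766754945489455304472257065075294400

/-- The primes below 91, as a bit mask. -/
def smallMask : ℕ := 629257845491037082732865708

/-- A Boolean check on the bit `d` of `mask`. -/
def chkMask (d : ℕ) : Bool :=
  !(Nat.testBit mask d) ||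
    (Nat.ble 91 d && Nat.ble d 8191 && Nat.beq (Nat.gcd d K90) 1) ||
    (Nat.ble d 90 && Nat.testBit smallMask d)

theorem mask_aux : ∀ a < 91, ∀ b < 91, chkMask (91 * a + b) = true := by
  decide +kernel

theorem dvd_K90 : ∀ i < 91, 0 < i → i ∣ K90 := by
  decide +kernel

theorem smallMask_prime : ∀ d < 91, Nat.testBit smallMask d = true → d.Prime := by
  intro d hd h
  interval_cases d <;> first | (norm_num; done) | exact absurd h (by decide)

theorem mask_lt : mask.log2 < 8192 := by
  decide +kernel

theorem mask_prime {d : ℕ} (h : Nat.testBit mask d = true) : d.Prime ∧ d < 8192 := by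
  have hd : d < 8192 := by
    by_contra hc
    have h1 : d ≤ mask.log2 := by
      have h2 := Nat.ge_two_pow_of_testBit h
      have hm : mask ≠ 0 := by
        intro h0
        rw [h0] at h
        simp at h
      exact (Nat.le_log2 hm).2 h2
    have := mask_lt
    omega
  have h' := mask_aux (d / 91) (by omega) (d % 91) (Nat.mod_lt _ (by norm_num))
  have e : 91 * (d / 91) + d % 91 = d := by omega
  rw [e] at h'
  refine ⟨?_, hd⟩
  rw [chkMask, h] at h'
  simp only [Bool.not_true, Bool.false_or, Bool.or_eq_true, Bool.and_eq_true] at h'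
  rcases h' with ⟨⟨h1, -⟩, h3⟩ | ⟨h1, h2⟩
  · have h1' : 91 ≤ d := Nat.le_of_ble_eq_true h1
    have h3' : Nat.gcd d K90 = 1 := Nat.eq_of_beq_eq_true h3
    by_contra hnp
    have hsq := Nat.minFac_sq_le_self (by omega) hnp
    have hm := Nat.minFac_prime (n := d) (by omega)
    have hm2 := hm.two_le
    have hlt : d.minFac < 91 := by
      by_contra hc
      have : 91 ≤ d.minFac := by omega
      nlinarith
    have hdvd : d.minFac ∣ Nat.gcd d K90 :=
      Nat.dvd_gcd (Nat.minFac_dvd d) (dvd_K90 _ hlt (by omega))
    rw [h3'] at hdvd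
    have := Nat.le_of_dvd (by norm_num) hdvd
    omega
  · exact smallMask_prime d (by have := Nat.le_of_ble_eq_true h1; omega) h2

end Pool.Agent.MP41caf5
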