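import Pool.Agent.Lib.MP_41caf5_nt.Basic
import Pool.Agent.Lib.MP_41caf5_nt.Tables

/-!
Soundness of the checker in `Core.lean`.
-/

namespace Pool.Agent.MP41caf5

/-- Membership in `primesFor (-3)`. -/
def InS (p : ℕ) : Prop := p ∈ primesFor (-3)

noncomputable instance : DecidablePred InS := Classical.decPred _

/-- The number of members of `primesFor (-3)` below `n`. -/
noncomputable def cnt (n : ℕ) : ℕ := Nat.count InS n

theorem cnt_mono {a b : ℕ} (h : a ≤ b) : cnt a ≤ cnt b := Nat.count_monotone _ h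

theorem cnt_succ_le {p p' : ℕ} (hp : p ∈ primesFor (-3)) (h : p < p') : cnt p + 1 ≤ cnt p' := by
  have h1 : cnt (p + 1) = cnt p + 1 := by
    unfold cnt
    rw [Nat.count_succ, if_pos (show InS p from hp)]
  rw [← h1]
  exact cnt_mono h

theorem prime_of_gcd {m : ℕ} (h1 : 1 < m) (h2 : m < 7174 ^ 2) (hg : Nat.gcd m M = 1) :
    m.Prime := by
  by_contra hnp
  have hsq := Nat.minFac_sq_le_self (by omega) hnp
  have hm := Nat.minFac_prime (n := m) (by omega)
  have hm2 := hm.two_le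
  have hlt : m.minFac < 7174 := by
    by_contra hc
    have : 7174 ≤ m.minFac := by omega
    nlinarith
  have hdvd : m.minFac ∣ Nat.gcd m M :=
    Nat.dvd_gcd (Nat.minFac_dvd m) (dvd_M (by omega) hlt)
  rw [hg] at hdvd
  have := Nat.le_of_dvd (by norm_num) hdvd
  omega

theorem ge_of_gcd {m : ℕ} (h1 : 1 < m) (hg : Nat.gcd m M = 1) : 7174 ≤ m := by
  by_contra hc
  have hdvd : m ∣ Nat.gcd m M := Nat.dvd_gcd dvd_rfl (dvd_M (by omega) (by omega))
  rw [hg] at hdvd
  have := Nat.le_of_dvd (by norm_num) hdvd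
  omega

theorem mask_bit {d : ℕ} (h : Nat.land (Nat.shiftRight mask d) 1 ≠ 0) : d.Prime ∧ d < 8192 := by
  apply mask_prime
  have h' : 1 &&& (mask >>> d) ≠ 0 := by
    rw [Nat.land_comm]
    exact h
  rw [Nat.testBit]
  simpa using h'

theorem pw_eq (b p e : ℕ) : pw b p e = b ^ e % p := by
  have h0 : pw b p e =
      ((((b ^ (e >>> 12) % p) ^ 64 * b ^ ((e >>> 6) &&& 63)) % p) ^ 64 * b ^ (e &&& 63)) % p := rfl
  rw [h0]
  have h63 : ∀ n : ℕ, n &&& 63 = n % 64 := fun n => Nat.and_two_pow_sub_one_eq_mod n 6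
  rw [h63, h63, Nat.shiftRight_eq_div_pow, Nat.shiftRight_eq_div_pow]
  have e1 : ((b ^ (e / 2 ^ 12) % p) ^ 64 * b ^ (e / 2 ^ 6 % 64)) % p = b ^ (e / 2 ^ 6) % p := by
    rw [Nat.mul_mod, Nat.pow_mod, Nat.mod_mod, ← Nat.pow_mod, ← Nat.mul_mod, ← pow_mul, ← pow_add]
    congr 2
    omega
  rw [e1, Nat.mul_mod, Nat.pow_mod, Nat.mod_mod, ← Nat.pow_mod, ← Nat.mul_mod, ← pow_mul, ← pow_add]
  congr 2
  omega

/-- The product kept in `A`. -/
def tokA (p : ℕ) (L : List ℕ) : ℕ :=
  (L.map fun d => Nat.land (Nat.shiftRight mask d) 1 * (3 ^ ((p - 1) / d) % p - 1)).prod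

/-- The product kept in `W`. -/
def tokW (p : ℕ) (L : List ℕ) : ℕ :=
  (L.map fun d => (2 ^ ((p - 1) / d) % p - 1)).prod

/-- The state of the loop is consistent with a list of odd tokens. -/
def Inv (p B A W : ℕ) : Prop :=
  ∃ L : List ℕ, (∀ d ∈ L, d % 2 = 1) ∧ B = L.prod ∧ A = tokA p L ∧ W = tokW p L

theorem inv_init (p : ℕ) : Inv p 1 1 1 := ⟨[], by simp, by simp, by simp [tokA], by simp [tokW]⟩

theorem inv_step {p B A W d : ℕ} (h : Inv p B A W) (hd : d % 2 = 1) :
    Inv p (B * d)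
      (A * (Nat.land (Nat.shiftRight mask d) 1 * (3 ^ ((p - 1) / d) % p - 1)))
      (W * (2 ^ ((p - 1) / d) % p - 1)) := by
  obtain ⟨L, hL, hB, hA, hW⟩ := h
  refine ⟨d :: L, ?_, ?_, ?_, ?_⟩
  · intro x hx
    rcases List.mem_cons.1 hx with rfl | hx
    · exact hd
    · exact hL x hx
  · rw [hB, List.prod_cons, mul_comm]
  · rw [hA, tokA, tokA, List.map_cons, List.prod_cons, mul_comm]
  · rw [hW, tokW, tokW, List.map_cons, List.prod_cons, mul_comm]

theorem cofr_eq (p B : ℕ) : cofr p B = (p - 1) / Nat.gcd (p - 1) ((B * 2) ^ 26) := rfl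

theorem expo_eq (p r : ℕ) : expo p r = ((p - 1) / r) % 8192 := by
  have h0 : expo p r = ((p - 1) / r) &&& 8191 := rfl
  rw [h0]
  exact Nat.and_two_pow_sub_one_eq_mod _ 13

theorem finG_eq (p r A W k : ℕ) : finG p r A W k =
    Nat.gcd (p * r) M * (Nat.gcd p (A * (3 ^ k % p - 1)) *
      (if (10 >>> (p &&& 7)) &&& 1 = 1 then 1 else 1 + W * (2 ^ k % p - 1))) := by
  have h0 : finG p r A W k = Nat.gcd (p * r) M * (Nat.gcd p (A * (3 ^ k % p - 1)) *
      (Bool.rec (1 + W * (2 ^ k % p - 1)) 1 (Nat.beq ((10 >>> (p &&& 7)) &&& 1) 1) : ℕ)) := rfl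
  rw [h0]
  congr 2
  by_cases h : (10 >>> (p &&& 7)) &&& 1 = 1
  · rw [if_pos h]
    have : Nat.beq ((10 >>> (p &&& 7)) &&& 1) 1 = true := by rw [h]; rfl
    rw [this]
  · rw [if_neg h]
    have : Nat.beq ((10 >>> (p &&& 7)) &&& 1) 1 = false := by
      rw [Bool.eq_false_iff]
      intro hc
      exact h (Nat.eq_of_beq_eq_true hc)
    rw [this]

theorem mod8_of_bit {p : ℕ} (h : (10 >>> (p &&& 7)) &&& 1 = 1) : p % 8 = 1 ∨ p % 8 = 3 := by
  have h7 : p &&& 7 = p % 8 := Nat.and_two_pow_sub_one_eq_mod p 3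
  rw [h7] at h
  have hlt : p % 8 < 8 := Nat.mod_lt _ (by norm_num)
  revert h hlt
  generalize p % 8 = x
  intro h hlt
  interval_cases x <;> revert h <;> decide

theorem mul_eq_one_aux {a b : ℕ} (h : a * b = 1) : a = 1 ∧ b = 1 :=
  ⟨Nat.eq_one_of_mul_eq_one_right h, Nat.eq_one_of_mul_eq_one_left h⟩

theorem one_of_pred {x : ℕ} (h : x - 1 = 0) (h0 : x ≠ 0) : x = 1 := by omega

/-- The check on one prime is sound. -/
theorem mem_of_finG {p B A W : ℕ} (hI : Inv p B A W) (h6 : p % 6 = 5) (hbig : 16384 < p)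
    (hup : p < 7174 ^ 2) (h : finG p (cofr p B) A W (expo p (cofr p B)) = 1) :
    p ∈ primesFor (-3) := by
  rw [finG_eq] at h
  obtain ⟨L, hL, hB, hA, hW⟩ := hI
  set r := cofr p B with hr
  set k := expo p r with hk
  obtain ⟨h1, h23⟩ := mul_eq_one_aux h
  obtain ⟨h2, h3⟩ := mul_eq_one_aux h23
  have hp : p.Prime := prime_of_gcd (by omega) hup (Nat.Coprime.coprime_mul_right h1)
  have hrM : Nat.gcd r M = 1 := Nat.Coprime.coprime_mul_left h1
  have hAne : A * (3 ^ k % p - 1) ≠ 0 := by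
    intro h0
    rw [h0, Nat.gcd_zero_right] at h2
    omega
  have hA0 : A ≠ 0 := left_ne_zero_of_mul hAne
  have hk3 : 3 ^ k % p - 1 ≠ 0 := right_ne_zero_of_mul hAne
  have hLA : ∀ d ∈ L, d.Prime ∧ d < 8192 ∧ 3 ^ ((p - 1) / d) % p ≠ 1 := by
    intro d hd
    have hne : Nat.land (Nat.shiftRight mask d) 1 * (3 ^ ((p - 1) / d) % p - 1) ≠ 0 := by
      intro h0
      apply hA0
      rw [hA, tokA]
      apply List.prod_eq_zero
      rw [List.mem_map]
      exact ⟨d, hd, h0⟩
    obtain ⟨hpr, hlt⟩ := mask_bit (left_ne_zero_of_mul hne)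
    have := right_ne_zero_of_mul hne
    exact ⟨hpr, hlt, fun hc => this (by omega)⟩
  -- the cofactor
  set g := Nat.gcd (p - 1) ((B * 2) ^ 26) with hg
  have hgpos : 0 < g := Nat.gcd_pos_of_pos_left _ (by omega)
  have hgdvd : g ∣ p - 1 := Nat.gcd_dvd_left _ _
  have hrg : r = (p - 1) / g := by rw [hr, cofr_eq]
  have hmul : g * r = p - 1 := by rw [hrg]; exact Nat.mul_div_cancel' hgdvd
  have hrpos : 0 < r := by
    rcases Nat.eq_zero_or_pos r with h0 | h0
    · rw [h0] at hmul; omega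
    · exact h0
  have hrle : r ≤ p - 1 := by
    rw [← hmul]; exact Nat.le_mul_of_pos_left _ hgpos
  have hrpr : r ≠ 1 → r.Prime ∧ 7174 ≤ r := fun hr1 =>
    ⟨prime_of_gcd (by omega) (by omega) hrM, ge_of_gcd (by omega) hrM⟩
  have hkr : k = ((p - 1) / r) % 8192 := by rw [hk, expo_eq]
  apply mem_primesFor hp h6 hbig
  · intro q hq hq5 hqd
    rw [← hmul] at hqd
    by_cases hqr : q ∣ r
    · have hr1 : r ≠ 1 := by
        intro h1
        rw [h1] at hqr
        have := Nat.le_of_dvd (by norm_num) hqr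
        omega
      obtain ⟨hrp, hrge⟩ := hrpr hr1
      have hqr' : q = r := (Nat.prime_dvd_prime_iff_eq hq hrp).1 hqr
      have hlt : (p - 1) / r < 8192 := by
        rw [Nat.div_lt_iff_lt_mul hrpos]
        have : 8192 * 7174 ≤ 8192 * r := Nat.mul_le_mul_left _ hrge
        omega
      rw [hqr']
      rw [Nat.mod_eq_of_lt hlt] at hkr
      rw [← hkr]
      intro hc
      apply hk3
      omega
    · have hqg : q ∣ g := ((Nat.Prime.dvd_mul hq).1 hqd).resolve_right hqr
      have hqB : q ∣ B * 2 := hq.dvd_of_dvd_pow (hqg.trans (Nat.gcd_dvd_right _ _))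
      have hqB' : q ∣ B := by
        rcases (Nat.Prime.dvd_mul hq).1 hqB with h | h
        · exact h
        · have := Nat.le_of_dvd (by norm_num) h
          omega
      rw [hB] at hqB'
      obtain ⟨d, hd, hqd'⟩ := (hq.prime.dvd_prod_iff).1 hqB'
      obtain ⟨hdp, -, hd3⟩ := hLA d hd
      rw [(Nat.prime_dvd_prime_iff_eq hq hdp).1 hqd']
      exact hd3
  · by_cases hbit : (10 >>> (p &&& 7)) &&& 1 = 1
    · left
      exact mod8_of_bit hbit
    · right
      rw [if_neg hbit] at h3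
      have h0 : W * (2 ^ k % p - 1) = 0 := by omega
      have hp2 : ¬ p ∣ 2 := fun hd => by
        have := Nat.le_of_dvd (by norm_num) hd
        omega
      rcases Nat.mul_eq_zero.1 h0 with hW0 | hk0
      · rw [hW, tokW, List.prod_eq_zero_iff, List.mem_map] at hW0
        obtain ⟨d, hd, hd0⟩ := hW0
        obtain ⟨hdp, hdlt, -⟩ := hLA d hd
        have hdodd := hL d hd
        have hd3 : 3 ≤ d := by
          have := hdp.two_le
          omega
        refine ⟨(p - 1) / d, Nat.div_pos (by omega) (by omega), ?_,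
          one_of_pred hd0 (two_mod_ne hp hp2)⟩
        have h1 : (p - 1) / d ≤ (p - 1) / 3 := Nat.div_le_div_left hd3 (by norm_num)
        omega
      · have hkne : k ≠ 0 := by
          intro hk0'
          apply hk3
          have h1p : 1 % p = 1 := Nat.mod_eq_of_lt (by omega)
          rw [hk0', pow_zero, h1p]
        have hklt : k < 8192 := by
          rw [hkr]; exact Nat.mod_lt _ (by norm_num)
        exact ⟨k, by omega, by omega, one_of_pred hk0 (two_mod_ne hp hp2)⟩

theorem loop_zero (D p B A W G c : ℕ) : loop 0 D p B A W G c = endS p G c := rfl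

theorem loop_succ (n D p B A W G c : ℕ) : loop (n + 1) D p B A W G c =
    (Bool.rec (evenS (loop n) (D >>> 13) p B A W G c (D &&& 8191))
      (oddS (loop n) (D >>> 13) p B A W G c (D &&& 8191) ((p - 1) / (D &&& 8191)))
      (Nat.beq (D &&& 1) 1) : ℕ) := rfl

theorem oddS_eq (ih : ℕ → ℕ → ℕ → ℕ → ℕ → ℕ → ℕ → ℕ) (D p B A W G c d e : ℕ) :
    oddS ih D p B A W G c d e =
      ih D p (B * d) (A * (Nat.land (Nat.shiftRight mask d) 1 * (pw 3 p e - 1)))
        (W * (pw 2 p e - 1)) G c := rfl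

theorem evenS_eq (ih : ℕ → ℕ → ℕ → ℕ → ℕ → ℕ → ℕ → ℕ) (D p B A W G c d : ℕ) :
    evenS ih D p B A W G c d =
      ih D (p + 3 * (d + 2)) 1 1 1 (G * finG p (cofr p B) A W (expo p (cofr p B))) (c + 1) := rfl

theorem endS_sound {p G c res : ℕ} (h : endS p G c = res) (h0 : res ≠ 0) :
    G = 1 ∧ c = 32 ∧ res = p := by
  have e : endS p G c = (Bool.rec 0 (Bool.rec 0 p (Nat.beq G 1)) (Nat.beq c 32) : ℕ) := rfl
  rw [e] at h
  cases hc : Nat.beq c 32 with
  | false => rw [hc] at h; exact absurd h.symm h0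
  | true =>
    rw [hc] at h
    cases hG : Nat.beq G 1 with
    | false => rw [hG] at h; exact absurd h.symm h0
    | true =>
      rw [hG] at h
      exact ⟨Nat.eq_of_beq_eq_true hG, Nat.eq_of_beq_eq_true hc, h.symm⟩

/-- Soundness of the inner loop. -/
theorem loop_sound : ∀ (n D p B A W G c res : ℕ), loop n D p B A W G c = res → res ≠ 0 →
    Inv p B A W → p % 6 = 5 → 16384 < p →
    G = 1 ∧ c ≤ 32 ∧ p ≤ res ∧ res % 6 = 5 ∧ (res < 7174 ^ 2 → cnt p + (32 - c) ≤ cnt res) := by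
  intro n
  induction n with
  | zero =>
    intro D p B A W G c res h h0 _ h6 _
    rw [loop_zero] at h
    obtain ⟨hG, hc, hr⟩ := endS_sound h h0
    refine ⟨hG, by omega, by omega, by omega, fun _ => ?_⟩
    rw [hr, hc]
    simp
  | succ n ih =>
    intro D p B A W G c res h h0 hI h6 hbig
    rw [loop_succ] at h
    cases hb : Nat.beq (D &&& 1) 1 with
    | true =>
      rw [hb] at h
      change oddS (loop n) (D >>> 13) p B A W G c (D &&& 8191) ((p - 1) / (D &&& 8191)) = res at h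
      rw [oddS_eq, pw_eq, pw_eq] at h
      have hodd : (D &&& 8191) % 2 = 1 := by
        have h1 : D &&& 1 = D % 2 := Nat.and_two_pow_sub_one_eq_mod D 1
        have h2 : D &&& 8191 = D % 8192 := Nat.and_two_pow_sub_one_eq_mod D 13
        have h3 := Nat.eq_of_beq_eq_true hb
        rw [h1] at h3
        rw [h2]
        omega
      exact ih _ _ _ _ _ _ _ _ h h0 (inv_step hI hodd) h6 hbig
    | false =>
      rw [hb] at h
      change evenS (loop n) (D >>> 13) p B A W G c (D &&& 8191) = res at h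
      rw [evenS_eq] at h
      have heven : (D &&& 8191) % 2 = 0 := by
        have h1 : D &&& 1 = D % 2 := Nat.and_two_pow_sub_one_eq_mod D 1
        have h2 : D &&& 8191 = D % 8192 := Nat.and_two_pow_sub_one_eq_mod D 13
        rw [h2]
        by_contra hc
        have h3 : D &&& 1 = 1 := by rw [h1]; omega
        rw [h3] at hb
        exact absurd hb (by decide)
      obtain ⟨hG, hc, hle, hres, hcnt⟩ := ih _ _ _ _ _ _ _ _ h h0 (inv_init _)
        (by omega) (by omega)
      obtain ⟨hG1, hfin⟩ := mul_eq_one_aux hG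
      refine ⟨hG1, by omega, by omega, hres, fun hlt => ?_⟩
      have hmem : p ∈ primesFor (-3) := mem_of_finG hI h6 hbig (by omega) hfin
      have h1 := hcnt hlt
      have h2 : cnt p + 1 ≤ cnt (p + 3 * ((D &&& 8191) + 2)) := cnt_succ_le hmem (by omega)
      omega

theorem blk_sound {E p res : ℕ} (h : blk E p = res) (h0 : res ≠ 0) (h6 : p % 6 = 5)
    (hbig : 16384 < p) :
    p ≤ res ∧ res % 6 = 5 ∧ (res < 7174 ^ 2 → cnt p + 32 ≤ cnt res) := by
  obtain ⟨-, -, h1, h2, h3⟩ := loop_sound _ _ _ _ _ _ _ _ _ h h0 (inv_init p) h6 hbig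
  exact ⟨h1, h2, h3⟩

theorem outer_succ (n E p : ℕ) : outer (n + 1) E p =
    (Nat.rec 0 (fun p' _ => outer n (E >>> (8 + 13 * (E &&& 255))) (p' + 1)) (blk E p) : ℕ) := rfl

theorem outer_sound : ∀ (n E p res : ℕ), outer n E p = res → res ≠ 0 → p % 6 = 5 → 16384 < p →
    p ≤ res ∧ res % 6 = 5 ∧ (res < 7174 ^ 2 → cnt p + 32 * n ≤ cnt res) := by
  intro n
  induction n with
  | zero =>
    intro E p res h h0 h6 _
    have h' : p = res := h
    subst h'
    exact ⟨le_rfl, h6, fun _ => by simp⟩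
  | succ n ih =>
    intro E p res h h0 h6 hbig
    rw [outer_succ] at h
    cases hb : blk E p with
    | zero =>
      rw [hb] at h
      exact absurd h.symm h0
    | succ p' =>
      rw [hb] at h
      obtain ⟨h1, h2, h3⟩ := blk_sound hb (by omega) h6 hbig
      obtain ⟨h4, h5, h7⟩ := ih _ _ _ h h0 h2 (by omega)
      refine ⟨by omega, h5, fun hlt => ?_⟩
      have h8 := h3 (by omega)
      have h9 := h7 hlt
      omega

/-- `p` is a possible start of a block, and at least `n` members of `primesFor (-3)` are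
below `p`. -/
def Reach (p n : ℕ) : Prop := p % 6 = 5 ∧ 16384 < p ∧ n ≤ cnt p

/-- One certified piece of data: `1024` more members. -/
theorem Reach.step {p n : ℕ} (hr : Reach p n) {E q : ℕ} (h : Cert E p q)
    (hq1 : Nat.ble 1 q = true) (hq : Nat.ble q 51460433 = true) : Reach q (n + 1024) := by
  obtain ⟨h6, hbig, hn⟩ := hr
  have h' := Nat.eq_of_beq_eq_true h
  have hq' := Nat.le_of_ble_eq_true hq
  have hq1' := Nat.le_of_ble_eq_true hq1
  obtain ⟨h1, h2, h3⟩ := outer_sound _ _ _ _ h' (by omega) h6 hbig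
  have h4 : cnt p + 32 * 32 ≤ cnt q := h3 (by omega)
  exact ⟨h2, by omega, by omega⟩

end Pool.Agent.MP41caf5
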